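import Mathlib
import Pool.Agent.H153R4.Pl

set_option autoImplicit false

/-! Radial mean bodies of negative order: the integral formula. -/

open MeasureTheory Set Filter Topology Real
open scoped ENNReal FourierTransform RealInnerProductSpace

namespace Pool.Agent.Q156.RM

variable {n : ℕ}

/-- Euclidean space -/
abbrev E (n : ℕ) : Type := EuclideanSpace ℝ (Fin n)

/-- convex bodies: compact convex sets with nonempty interior -/
structure IsConvexBody (K : Set (E n)) : Prop where
  convex : Convex ℝ K
  compact : IsCompact K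
  interior_nonempty : (interior K).Nonempty

/-- the radial function `sup {l ≥ 0 : l x ∈ M}` -/
noncomputable def radial (M : Set (E n)) (x : E n) : ℝ := sSup {l : ℝ | 0 ≤ l ∧ l • x ∈ M}

/-- the translate `K - x` -/
def translate (K : Set (E n)) (x : E n) : Set (E n) := {y | y + x ∈ K}

/-- the radial function of the radial `p`-th mean body -/
noncomputable def radialMean (K : Set (E n)) (p : ℝ) (u : E n) : ℝ :=
  ((volume.real K)⁻¹ * ∫ x in K, radial (translate K x) u ^ p) ^ (1 / p)

section
variable {K : Set (E n)} (hK : IsConvexBody K)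
include hK

lemma isCompact_radset {y u : E n} (hu : u ≠ 0) :
    IsCompact {l : ℝ | 0 ≤ l ∧ l • u ∈ translate K y} := by
  have hcl : IsClosed {l : ℝ | 0 ≤ l ∧ l • u ∈ translate K y} := by
    have h1 : IsClosed {l : ℝ | (0 : ℝ) ≤ l} := isClosed_Ici
    have h2 : IsClosed ((fun l : ℝ => l • u + y) ⁻¹' K) :=
      hK.compact.isClosed.preimage (by fun_prop)
    exact h1.inter h2
  obtain ⟨R, hR⟩ := hK.compact.isBounded.exists_norm_le
  have hu0 : 0 < ‖u‖ := norm_pos_iff.2 hu
  refine (isCompact_Icc (a := (0 : ℝ)) (b := (R + ‖y‖) / ‖u‖)).of_isClosed_subset hcl ?_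
  rintro l ⟨hl0, hl⟩
  refine ⟨hl0, ?_⟩
  rw [le_div_iff₀ hu0]
  have h1 := hR _ hl
  have h2 : ‖l • u‖ ≤ ‖l • u + y‖ + ‖y‖ := by
    have := norm_sub_le (l • u + y) y
    simpa using this
  rw [norm_smul, Real.norm_eq_abs, abs_of_nonneg hl0] at h2
  linarith

lemma mem_iff_le_radial {y u : E n} (hy : y ∈ K) (hu : u ≠ 0) {r : ℝ} (hr : 0 ≤ r) :
    y + r • u ∈ K ↔ r ≤ radial (translate K y) u := by
  have hc := isCompact_radset hK (y := y) hu
  have hne : {l : ℝ | 0 ≤ l ∧ l • u ∈ translate K y}.Nonempty := ⟨0, le_rfl, by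
    simpa [translate] using hy⟩
  constructor
  · intro h
    refine le_csSup hc.bddAbove ⟨hr, ?_⟩
    change r • u + y ∈ K
    rwa [add_comm]
  · intro h
    have hm := hc.sSup_mem hne
    change 0 ≤ radial (translate K y) u ∧ radial (translate K y) u • u + y ∈ K at hm
    set ρ := radial (translate K y) u with hρ
    rcases eq_or_lt_of_le hm.1 with h0 | h0
    · have : r = 0 := le_antisymm (by linarith) hr
      simpa [this] using hy
    · have h3 := hK.convex hy hm.2 (a := 1 - r / ρ) (b := r / ρ)
        (by rw [sub_nonneg, div_le_one h0]; exact h) (by positivity) (by ring)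
      have e : (1 - r / ρ) • y + (r / ρ) • (ρ • u + y) = y + r • u := by
        rw [smul_add, smul_smul, div_mul_cancel₀ _ h0.ne', sub_smul, one_smul]
        abel
      rwa [e] at h3

omit hK in
lemma radial_nonneg (M : Set (E n)) (x : E n) : 0 ≤ radial M x :=
  Real.sSup_nonneg fun _ h => h.1

lemma radial_pos {y u : E n} (hy : y ∈ interior K) (hu : u ≠ 0) :
    0 < radial (translate K y) u := by
  obtain ⟨ε, hε, hb⟩ := Metric.isOpen_iff.1 isOpen_interior y hy
  have hu0 : 0 < ‖u‖ := norm_pos_iff.2 hu
  have h1 : y + (ε / (2 * ‖u‖)) • u ∈ K := by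
    apply interior_subset
    apply hb
    rw [Metric.mem_ball, dist_eq_norm, add_sub_cancel_left, norm_smul, Real.norm_eq_abs,
      abs_of_pos (by positivity)]
    have : ε / (2 * ‖u‖) * ‖u‖ = ε / 2 := by field_simp
    rw [this]
    linarith
  have h2 := (mem_iff_le_radial hK (interior_subset hy) hu (by positivity)).1 h1
  have : 0 < ε / (2 * ‖u‖) := by positivity
  linarith

end

lemma lintegral_tail {q ρ : ℝ} (hq : 0 < q) (hρ : 0 < ρ) :
    ∫⁻ r in Ioi ρ, ENNReal.ofReal (q * r ^ (-q - 1)) = ENNReal.ofReal (ρ ^ (-q)) := by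
  have h1 : IntegrableOn (fun r : ℝ => q * r ^ (-q - 1)) (Ioi ρ) :=
    (integrableOn_Ioi_rpow_of_lt (by linarith) hρ).const_mul q
  rw [← ofReal_integral_eq_lintegral_ofReal h1]
  · rw [integral_const_mul, integral_Ioi_rpow_of_lt (by linarith) hρ]
    congr 1
    have : -q - 1 + 1 = -q := by ring
    rw [this]
    field_simp
  · rw [EventuallyLE, ae_restrict_iff' measurableSet_Ioi]
    refine Eventually.of_forall fun r hr => ?_
    have : 0 < r := hρ.trans hr
    positivity

/-- the integrand -/
noncomputable def ker (K : Set (E n)) (q : ℝ) (u : E n) (y : E n) (r : ℝ) : ℝ≥0∞ :=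
  (((fun z : E n × ℝ => z.1 + z.2 • u) ⁻¹' K)ᶜ).indicator
    (fun z => ENNReal.ofReal (q * z.2 ^ (-q - 1))) (y, r)

lemma measurable_ker {K : Set (E n)} (hK : IsConvexBody K) (q : ℝ) (u : E n) :
    Measurable (Function.uncurry (ker K q u)) := by
  have h1 : MeasurableSet (((fun z : E n × ℝ => z.1 + z.2 • u) ⁻¹' K)ᶜ) :=
    (hK.compact.measurableSet.preimage (by fun_prop)).compl
  have h2 : Measurable (fun z : E n × ℝ => ENNReal.ofReal (q * z.2 ^ (-q - 1))) := by fun_prop
  exact h2.indicator h1

lemma radial_rpow_eq {K : Set (E n)} (hK : IsConvexBody K) {q : ℝ} (hq : 0 < q) {y u : E n}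
    (hy : y ∈ interior K) (hu : u ≠ 0) :
    ENNReal.ofReal (radial (translate K y) u ^ (-q)) = ∫⁻ r in Ioi (0 : ℝ), ker K q u y r := by
  have hρ := radial_pos hK hy hu
  rw [← lintegral_tail hq hρ]
  rw [← lintegral_indicator measurableSet_Ioi, ← lintegral_indicator measurableSet_Ioi]
  apply lintegral_congr
  intro r
  by_cases hr : 0 < r
  · have hiff := mem_iff_le_radial hK (interior_subset hy) hu hr.le
    by_cases h : r ≤ radial (translate K y) u
    · rw [indicator_of_notMem (by simpa using h), indicator_of_mem (by simpa using hr)]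
      unfold ker
      rw [indicator_of_notMem]
      simpa using hiff.2 h
    · rw [indicator_of_mem (by simpa using h), indicator_of_mem (by simpa using hr)]
      unfold ker
      rw [indicator_of_mem]
      simpa using fun h' => h (hiff.1 h')
  · rw [indicator_of_notMem, indicator_of_notMem (by simpa using hr)]
    simp only [mem_Ioi, not_lt]
    push Not at hr
    exact hr.trans hρ.le

lemma ae_interior {K : Set (E n)} (hK : IsConvexBody K) :
    ∀ᵐ y ∂(volume.restrict K), y ∈ interior K := by
  have h := hK.convex.addHaar_frontier (volume : Measure (E n))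
  rw [ae_restrict_iff' hK.compact.measurableSet]
  have h2 : ∀ᵐ y ∂(volume : Measure (E n)), y ∉ frontier K := by
    rw [ae_iff]; simpa using h
  filter_upwards [h2] with y hy hyK
  by_contra h3
  apply hy
  rw [frontier, Set.mem_sdiff]
  exact ⟨subset_closure hyK, h3⟩

/-- Tonelli -/
lemma lintegral_radial {K : Set (E n)} (hK : IsConvexBody K) {q : ℝ} (hq : 0 < q) {u : E n}
    (hu : u ≠ 0) :
    ∫⁻ y in K, ENNReal.ofReal (radial (translate K y) u ^ (-q)) =
      ∫⁻ r in Ioi (0 : ℝ), ENNReal.ofReal (q * r ^ (-q - 1)) *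
        volume (K ∩ {y | y + r • u ∉ K}) := by
  have h1 : ∫⁻ y in K, ENNReal.ofReal (radial (translate K y) u ^ (-q)) =
      ∫⁻ y in K, ∫⁻ r in Ioi (0 : ℝ), ker K q u y r := by
    apply lintegral_congr_ae
    filter_upwards [ae_interior hK] with y hy
    exact radial_rpow_eq hK hq hy hu
  rw [h1, lintegral_lintegral_swap (measurable_ker hK q u).aemeasurable]
  apply lintegral_congr
  intro r
  have h2 : (fun y => ker K q u y r) =
      ({y | y + r • u ∉ K}).indicator (fun _ => ENNReal.ofReal (q * r ^ (-q - 1))) := by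
    funext y
    unfold ker
    by_cases h : y + r • u ∈ K
    · rw [indicator_of_notMem (by simpa using h), indicator_of_notMem (by simpa using h)]
    · rw [indicator_of_mem (by simpa using h), indicator_of_mem (by simpa using h)]
  rw [h2]
  have hm : MeasurableSet {y : E n | y + r • u ∉ K} :=
    (hK.compact.measurableSet.preimage (measurable_id.add_const _)).compl
  rw [lintegral_indicator hm, setLIntegral_const, Measure.restrict_apply hm, inter_comm]

end Pool.Agent.Q156.RM
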