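import Pool.Agent.Q156.RM.A

set_option autoImplicit false

open MeasureTheory Set Filter Topology Real
open scoped ENNReal FourierTransform RealInnerProductSpace

namespace Pool.Agent.Q156.RM

variable {n : ℕ}

/-- the indicator function of `K` -/
noncomputable def ind (K : Set (E n)) : E n → ℂ := K.indicator (fun _ => (1 : ℂ))

/-- the density: squared modulus of the Fourier transform of the indicator function -/
noncomputable def w (K : Set (E n)) (ξ : E n) : ℝ := ‖𝓕 (ind K) ξ‖ ^ 2

lemma ind_integrable {K : Set (E n)} (hK : IsCompact K) : Integrable (ind K) := by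
  unfold ind
  rw [integrable_indicator_iff hK.measurableSet]
  exact integrableOn_const hK.measure_lt_top.ne

lemma w_continuous {K : Set (E n)} (hK : IsCompact K) : Continuous (w K) := by
  have hcont : Continuous (𝓕 (ind K)) := by
    have := VectorFourier.fourierIntegral_continuous (L := innerₗ (E n))
      Real.continuous_fourierChar continuous_inner (ind_integrable hK)
    exact this
  exact hcont.norm.pow 2

lemma w_nonneg (K : Set (E n)) (ξ : E n) : 0 ≤ w K ξ := sq_nonneg _

lemma fourier_shift (f : E n → ℂ) (v ξ : E n) :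
    𝓕 (fun y => f (y + v)) ξ = Real.fourierChar ⟪v, ξ⟫ • 𝓕 f ξ := by
  have h := VectorFourier.fourierIntegral_comp_add_right Real.fourierChar volume
    (innerₗ (E n)) f v
  exact congrFun h ξ

lemma norm_one_sub_char (t : ℝ) :
    ‖(1 : ℂ) - (Real.fourierChar t : ℂ)‖ ^ 2 = 2 * (1 - Real.cos (2 * π * t)) := by
  rw [Real.fourierChar_apply, ← Complex.normSq_eq_norm_sq, Complex.normSq_apply]
  have e : Complex.exp (((2 * π * t : ℝ) : ℂ) * Complex.I) =
      (Real.cos (2 * π * t) : ℂ) + (Real.sin (2 * π * t) : ℂ) * Complex.I := by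
    rw [Complex.exp_mul_I, Complex.ofReal_cos, Complex.ofReal_sin]
  rw [e]
  simp only [Complex.sub_re, Complex.one_re, Complex.add_re, Complex.ofReal_re, Complex.mul_re,
    Complex.I_re, mul_zero, Complex.ofReal_im, Complex.I_im, mul_one, sub_self, add_zero,
    Complex.sub_im, Complex.one_im, Complex.add_im, Complex.mul_im, zero_add, zero_sub]
  have := Real.sin_sq_add_cos_sq (2 * π * t)
  nlinarith [this]

/-- Plancherel -/
lemma volume_eq {K : Set (E n)} (hK : IsCompact K) (v : E n) :
    volume (K ∩ {y | y + v ∉ K}) =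
      ∫⁻ ξ, ENNReal.ofReal ((1 - Real.cos (2 * π * ⟪v, ξ⟫)) * w K ξ) := by
  have hm := hK.measurableSet
  have hmv : MeasurableSet {y : E n | y + v ∈ K} := hm.preimage (measurable_id.add_const _)
  set g : E n → ℂ := fun y => ind K y - ind K (y + v) with hg
  have hgi : Integrable (fun y => ind K (y + v)) := (ind_integrable hK).comp_add_right v
  have h1 : Integrable g := (ind_integrable hK).sub hgi
  have hgb : ∀ y, ‖g y‖ ≤ 1 := by
    intro y
    simp only [hg, ind]
    by_cases a : y ∈ K <;> by_cases b : y + v ∈ K <;> simp [a, b]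
  have h2 : MemLp g 2 := by
    rw [memLp_two_iff_integrable_sq_norm h1.aestronglyMeasurable]
    refine h1.norm.mono' (h1.aestronglyMeasurable.norm.pow 2) (Eventually.of_forall fun x => ?_)
    rw [Real.norm_eq_abs, abs_of_nonneg (sq_nonneg _), sq]
    exact mul_le_of_le_one_left (norm_nonneg _) (hgb x)
  have hP := H153R4.plancherel g h1 h2
  have hF : ∀ ξ, ‖𝓕 g ξ‖ₑ ^ 2 = 2 * ENNReal.ofReal ((1 - Real.cos (2 * π * ⟪v, ξ⟫)) * w K ξ) := by
    intro ξ
    have e1 : 𝓕 g ξ = ((1 : ℂ) - (Real.fourierChar ⟪v, ξ⟫ : ℂ)) * 𝓕 (ind K) ξ := by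
      have e2 : 𝓕 g ξ = 𝓕 (ind K) ξ - 𝓕 (fun y => ind K (y + v)) ξ := by
        rw [Real.fourier_eq, Real.fourier_eq, Real.fourier_eq, ← integral_sub]
        · simp only [hg, smul_sub]
        · exact (Real.fourierIntegral_convergent_iff ξ).2 (ind_integrable hK)
        · exact (Real.fourierIntegral_convergent_iff ξ).2 hgi
      rw [e2, fourier_shift, Circle.smul_def, smul_eq_mul]
      ring
    have e5 : 2 * (1 - Real.cos (2 * π * ⟪v, ξ⟫)) * ‖𝓕 (ind K) ξ‖ ^ 2 =
        2 * ((1 - Real.cos (2 * π * ⟪v, ξ⟫)) * w K ξ) := by unfold w; ring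
    rw [e1, ← ofReal_norm, norm_mul, ← ENNReal.ofReal_pow (by positivity), mul_pow,
      norm_one_sub_char, e5, ENNReal.ofReal_mul (by norm_num : (0 : ℝ) ≤ 2), ENNReal.ofReal_ofNat]
  have hG : ∫⁻ y, ‖g y‖ₑ ^ 2 = 2 * volume (K ∩ {y | y + v ∉ K}) := by
    have e1 : ∀ y, ‖g y‖ₑ ^ 2 = (K ∩ {y | y + v ∉ K}).indicator (fun _ => (1 : ℝ≥0∞)) y +
        (Kᶜ ∩ {y | y + v ∈ K}).indicator (fun _ => (1 : ℝ≥0∞)) y := by
      intro y
      simp only [hg, ind]
      by_cases a : y ∈ K <;> by_cases b : y + v ∈ K <;> simp [a, b]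
    simp_rw [e1]
    have m1 : MeasurableSet (K ∩ {y : E n | y + v ∉ K}) := hm.inter hmv.compl
    have m2 : MeasurableSet (Kᶜ ∩ {y : E n | y + v ∈ K}) := hm.compl.inter hmv
    rw [lintegral_add_left (measurable_const.indicator m1), lintegral_indicator m1,
      lintegral_indicator m2, setLIntegral_one, setLIntegral_one, two_mul]
    congr 1
    have hfin : volume (K ∩ {y : E n | y + v ∈ K}) ≠ ⊤ :=
      ((measure_mono inter_subset_left).trans_lt hK.measure_lt_top).ne
    have a1 : volume K = volume (K ∩ {y : E n | y + v ∈ K}) + volume (K ∩ {y | y + v ∉ K}) := by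
      have := measure_inter_add_sdiff (μ := (volume : Measure (E n))) K hmv
      rw [← this]
      rfl
    have a2 : volume {y : E n | y + v ∈ K} =
        volume (K ∩ {y : E n | y + v ∈ K}) + volume (Kᶜ ∩ {y : E n | y + v ∈ K}) := by
      have := measure_inter_add_sdiff (μ := (volume : Measure (E n))) {y : E n | y + v ∈ K} hm
      rw [← this, inter_comm]
      congr 2
      ext y
      simp [and_comm]
    have a3 : volume {y : E n | y + v ∈ K} = volume K := by
      have := measure_preimage_add_right (volume : Measure (E n)) v K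
      exact this
    rw [a3, a1] at a2
    exact ((ENNReal.add_right_inj hfin).1 a2).symm
  have h3 : 2 * volume (K ∩ {y | y + v ∉ K}) =
      2 * ∫⁻ ξ, ENNReal.ofReal ((1 - Real.cos (2 * π * ⟪v, ξ⟫)) * w K ξ) := by
    rw [← hG, ← hP, ← lintegral_const_mul' _ _ (by norm_num)]
    exact lintegral_congr hF
  exact (ENNReal.mul_right_inj (by norm_num) (by norm_num)).1 h3

/-! ### The constant -/

lemma cos_kernel_integrable {q : ℝ} (hq : 0 < q) (hq2 : q < 2) (t : ℝ) :
    IntegrableOn (fun r : ℝ => r ^ (-q - 1) * (1 - Real.cos (r * t))) (Ioi 0) := by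
  have hsplit : Ioi (0 : ℝ) = Ioc 0 1 ∪ Ioi 1 := by
    rw [Ioc_union_Ioi_eq_Ioi zero_le_one]
  rw [hsplit]
  have hmeas : Measurable (fun r : ℝ => r ^ (-q - 1) * (1 - Real.cos (r * t))) := by fun_prop
  refine IntegrableOn.union ?_ ?_
  · have h1 : IntegrableOn (fun r : ℝ => t ^ 2 / 2 * r ^ (1 - q)) (Ioc 0 1) := by
      have := (intervalIntegral.intervalIntegrable_rpow' (a := 0) (b := 1) (r := 1 - q)
        (by linarith)).const_mul (t ^ 2 / 2)
      rwa [intervalIntegrable_iff_integrableOn_Ioc_of_le zero_le_one] at this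
    refine h1.mono' hmeas.aestronglyMeasurable ?_
    rw [ae_restrict_iff' measurableSet_Ioc]
    refine Eventually.of_forall fun r hr => ?_
    have hr0 : 0 < r := hr.1
    have hc := Real.one_sub_sq_div_two_le_cos (x := r * t)
    have hc1 := Real.cos_le_one (r * t)
    rw [Real.norm_eq_abs, abs_of_nonneg (mul_nonneg (by positivity) (by linarith))]
    have e : t ^ 2 / 2 * r ^ (1 - q) = r ^ (-q - 1) * ((r * t) ^ 2 / 2) := by
      have : r ^ (1 - q) = r ^ (-q - 1) * r ^ (2 : ℝ) := by
        rw [← Real.rpow_add hr0]; congr 1; ring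
      rw [this, Real.rpow_two]
      ring
    rw [e]
    exact mul_le_mul_of_nonneg_left (by linarith) (by positivity)
  · have h1 : IntegrableOn (fun r : ℝ => 2 * r ^ (-q - 1)) (Ioi 1) :=
      (integrableOn_Ioi_rpow_of_lt (by linarith) one_pos).const_mul 2
    refine h1.mono' hmeas.aestronglyMeasurable ?_
    rw [ae_restrict_iff' measurableSet_Ioi]
    refine Eventually.of_forall fun r hr => ?_
    have hr0 : 0 < r := lt_trans one_pos hr
    have hc := Real.neg_one_le_cos (r * t)
    have hc1 := Real.cos_le_one (r * t)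
    rw [Real.norm_eq_abs, abs_of_nonneg (mul_nonneg (by positivity) (by linarith)), mul_comm]
    exact mul_le_mul_of_nonneg_right (by linarith) (by positivity)

/-- the constant `∫_0^∞ (1 - cos r) r^(-q-1) dr` -/
noncomputable def cq (q : ℝ) : ℝ := ∫ r in Ioi (0 : ℝ), r ^ (-q - 1) * (1 - Real.cos r)

lemma cos_kernel_integral {q : ℝ} (hq : 0 < q) (t : ℝ) :
    ∫ r in Ioi (0 : ℝ), r ^ (-q - 1) * (1 - Real.cos (r * t)) = |t| ^ q * cq q := by
  rcases eq_or_ne t 0 with rfl | ht
  · simp [Real.zero_rpow hq.ne']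
  have ht' : 0 < |t| := abs_pos.2 ht
  have h := integral_comp_mul_left_Ioi (fun r : ℝ => r ^ (-q - 1) * (1 - Real.cos r)) 0 ht'
  rw [mul_zero] at h
  have e : ∀ r ∈ Ioi (0 : ℝ), r ^ (-q - 1) * (1 - Real.cos (r * t)) =
      |t| ^ (q + 1) * ((|t| * r) ^ (-q - 1) * (1 - Real.cos (|t| * r))) := by
    intro r hr
    have hr0 : 0 < r := hr
    have hc : Real.cos (|t| * r) = Real.cos (r * t) := by
      rcases abs_cases t with ⟨h, _⟩ | ⟨h, _⟩
      · rw [h, mul_comm]
      · rw [h, ← Real.cos_neg]; congr 1; ring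
    rw [hc, Real.mul_rpow ht'.le hr0.le, ← mul_assoc, ← mul_assoc, ← Real.rpow_add ht']
    have : q + 1 + (-q - 1) = 0 := by ring
    rw [this, Real.rpow_zero, one_mul]
  rw [setIntegral_congr_fun measurableSet_Ioi e, integral_const_mul, h, smul_eq_mul]
  unfold cq
  rw [← mul_assoc]
  congr 1
  rw [Real.rpow_add ht', Real.rpow_one]
  field_simp

lemma cq_pos {q : ℝ} (hq : 0 < q) (hq2 : q < 2) : 0 < cq q := by
  unfold cq
  have hi := cos_kernel_integrable hq hq2 1
  simp only [mul_one] at hi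
  rw [setIntegral_pos_iff_support_of_nonneg_ae _ hi]
  · have hsub : Ioo (0 : ℝ) 1 ⊆
        (Function.support fun r : ℝ => r ^ (-q - 1) * (1 - Real.cos r)) ∩ Ioi 0 := by
      intro r hr
      have hr0 : 0 < r := hr.1
      refine ⟨?_, hr0⟩
      rw [Function.mem_support]
      have hc : Real.cos r < 1 := by
        exact lt_of_le_of_ne (Real.cos_le_one r) fun h => by
          have h2 := (Real.cos_eq_one_iff_of_lt_of_lt (x := r)
            (by linarith [Real.pi_pos]) (by linarith [hr.2, Real.pi_gt_three])).1 h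
          linarith
      have : 0 < r ^ (-q - 1) * (1 - Real.cos r) := mul_pos (by positivity) (by linarith)
      exact this.ne'
    refine lt_of_lt_of_le ?_ (measure_mono hsub)
    simp
  · rw [EventuallyLE, ae_restrict_iff' measurableSet_Ioi]
    refine Eventually.of_forall fun r hr => ?_
    have hr0 : 0 < r := hr
    exact mul_nonneg (by positivity) (by linarith [Real.cos_le_one r])

lemma cos_kernel_lintegral {q : ℝ} (hq : 0 < q) (hq2 : q < 2) (t : ℝ) :
    ∫⁻ r in Ioi (0 : ℝ), ENNReal.ofReal (r ^ (-q - 1) * (1 - Real.cos (r * t))) =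
      ENNReal.ofReal (|t| ^ q * cq q) := by
  rw [← cos_kernel_integral hq t, ofReal_integral_eq_lintegral_ofReal
    (cos_kernel_integrable hq hq2 t)]
  rw [EventuallyLE, ae_restrict_iff' measurableSet_Ioi]
  refine Eventually.of_forall fun r hr => ?_
  have hr0 : 0 < r := hr
  exact mul_nonneg (by positivity) (by linarith [Real.cos_le_one (r * t)])

/-- the constant `C_q` -/
noncomputable def CC (q : ℝ) : ℝ := q * (2 * π) ^ q * cq q

lemma CC_pos {q : ℝ} (hq : 0 < q) (hq2 : q < 2) : 0 < CC q := by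
  have := cq_pos hq hq2
  unfold CC
  positivity

/-- the main formula, with values in `[0, ∞]` -/
lemma lintegral_radial_eq {K : Set (E n)} (hK : IsConvexBody K) {q : ℝ} (hq : 0 < q) (hq2 : q < 2)
    {u : E n} (hu : u ≠ 0) :
    ∫⁻ y in K, ENNReal.ofReal (radial (translate K y) u ^ (-q)) =
      ∫⁻ ξ, ENNReal.ofReal (CC q * |⟪u, ξ⟫| ^ q * w K ξ) := by
  rw [lintegral_radial hK hq hu]
  have hwm : Measurable (w K) := (w_continuous hK.compact).measurable
  have h1 : ∀ r ∈ Ioi (0 : ℝ), ENNReal.ofReal (q * r ^ (-q - 1)) *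
        volume (K ∩ {y | y + r • u ∉ K}) =
      ∫⁻ ξ, ENNReal.ofReal (q * w K ξ * (r ^ (-q - 1) *
        (1 - Real.cos (r * (2 * π * ⟪u, ξ⟫))))) := by
    intro r hr
    have hr0 : 0 < r := hr
    rw [volume_eq hK.compact, ← lintegral_const_mul' _ _ ENNReal.ofReal_ne_top]
    apply lintegral_congr
    intro ξ
    rw [← ENNReal.ofReal_mul (by positivity)]
    congr 1
    rw [real_inner_smul_left]
    have : 2 * π * (r * ⟪u, ξ⟫) = r * (2 * π * ⟪u, ξ⟫) := by ring
    rw [this]
    ring
  rw [setLIntegral_congr_fun measurableSet_Ioi h1]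
  rw [lintegral_lintegral_swap]
  · apply lintegral_congr
    intro ξ
    have h0 : 0 ≤ q * w K ξ := mul_nonneg hq.le (w_nonneg K ξ)
    simp_rw [ENNReal.ofReal_mul h0]
    rw [lintegral_const_mul' _ _ ENNReal.ofReal_ne_top, cos_kernel_lintegral hq hq2,
      ← ENNReal.ofReal_mul h0]
    congr 1
    rw [abs_mul, abs_of_pos (by positivity : (0 : ℝ) < 2 * π),
      Real.mul_rpow (by positivity) (abs_nonneg _)]
    unfold CC
    ring
  · have : Measurable (Function.uncurry fun (r : ℝ) (ξ : E n) =>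
        ENNReal.ofReal (q * w K ξ * (r ^ (-q - 1) * (1 - Real.cos (r * (2 * π * ⟪u, ξ⟫)))))) := by
      have hw2 : Measurable fun z : ℝ × E n => w K z.2 := hwm.comp measurable_snd
      unfold Function.uncurry
      fun_prop
    exact this.aemeasurable

end Pool.Agent.Q156.RM
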