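import Pool.Agent.Q156.RM.B

set_option autoImplicit false

open MeasureTheory Set Filter Topology Real
open scoped ENNReal FourierTransform RealInnerProductSpace

namespace Pool.Agent.Q156.RM

variable {n : ℕ}

lemma IsConvexBody.volume_pos {K : Set (E n)} (hK : IsConvexBody K) : 0 < volume K :=
  (isOpen_interior.measure_pos _ hK.interior_nonempty).trans_le (measure_mono interior_subset)

lemma IsConvexBody.volume_real_pos {K : Set (E n)} (hK : IsConvexBody K) : 0 < volume.real K :=
  ENNReal.toReal_pos hK.volume_pos.ne' hK.compact.measure_lt_top.ne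

/-- the points of `K` leaving `K` after a translation by `r u` have measure `O(r)` -/
lemma exit_bound {K : Set (E n)} (hK : IsConvexBody K) (u : E n) :
    ∃ A : ℝ, 0 ≤ A ∧ ∀ r : ℝ, 0 < r →
      volume (K ∩ {y | y + r • u ∉ K}) ≤ ENNReal.ofReal (A * r) := by
  obtain ⟨z, hz⟩ := hK.interior_nonempty
  obtain ⟨δ₀, hδ₀, hb⟩ := Metric.isOpen_iff.1 isOpen_interior z hz
  set δ := δ₀ / 2 with hδd
  have hδ : 0 < δ := by positivity
  have hball : ∀ x : E n, ‖x‖ ≤ δ → z + x ∈ K := by
    intro x hx
    apply interior_subset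
    apply hb
    rw [Metric.mem_ball, dist_eq_norm, add_sub_cancel_left]
    linarith
  set V := volume.real K with hV
  have hV0 : 0 < V := hK.volume_real_pos
  have hVe : volume K = ENNReal.ofReal V := by
    rw [hV, Measure.real, ENNReal.ofReal_toReal hK.compact.measure_lt_top.ne]
  refine ⟨(n + 1) * V * ‖u‖ / δ, by positivity, fun r hr => ?_⟩
  set s := r * ‖u‖ / δ with hs
  have hs0 : 0 ≤ s := by positivity
  have hA : (n + 1) * V * ‖u‖ / δ * r = (n + 1) * V * s := by rw [hs]; ring
  rw [hA]
  rcases le_or_gt s 1 with h1 | h1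
  · -- homothetic copy
    have hsub : K ∩ {y | y + r • u ∉ K} ⊆ K \ (AffineMap.homothety z (1 - s) '' K) := by
      rintro y ⟨hyK, hy⟩
      refine ⟨hyK, ?_⟩
      rintro ⟨k, hk, rfl⟩
      apply hy
      rcases eq_or_lt_of_le hs0 with h0 | h0
      · have hu : ‖u‖ = 0 := by
          have : r * ‖u‖ / δ = 0 := by rw [← hs, ← h0]
          rw [div_eq_zero_iff] at this
          rcases this with h | h
          · rcases mul_eq_zero.1 h with h | h
            · exact absurd h hr.ne'
            · exact h
          · exact absurd h hδ.ne'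
        rw [norm_eq_zero] at hu
        rw [hu, smul_zero, add_zero, ← h0, sub_zero, AffineMap.homothety_one]
        exact hk
      · have hx : z + (r / s) • u ∈ K := by
          apply hball
          rw [norm_smul, Real.norm_eq_abs, abs_of_nonneg (by positivity)]
          have hu : 0 < ‖u‖ := by
            by_contra hc
            have : ‖u‖ = 0 := le_antisymm (not_lt.1 hc) (norm_nonneg _)
            rw [hs, this, mul_zero, zero_div] at h0
            exact lt_irrefl _ h0
          have : r / s * ‖u‖ = δ := by rw [hs]; field_simp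
          rw [this]
        have h3 := hK.convex hk hx (a := 1 - s) (b := s) (by linarith) hs0 (by ring)
        have e : (1 - s) • k + s • (z + (r / s) • u) =
            AffineMap.homothety z (1 - s) k + r • u := by
          rw [AffineMap.homothety_apply, vsub_eq_sub, vadd_eq_add, smul_add, smul_smul,
            mul_div_cancel₀ _ h0.ne', smul_sub, sub_smul 1 s z, one_smul]
          abel
        rwa [e] at h3
    refine (measure_mono hsub).trans ?_
    have hKs : AffineMap.homothety z (1 - s) '' K ⊆ K := by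
      rintro _ ⟨k, hk, rfl⟩
      have h3 := hK.convex hk (interior_subset hz) (a := 1 - s) (b := s) (by linarith) hs0 (by ring)
      have e : (1 - s) • k + s • z = AffineMap.homothety z (1 - s) k := by
        rw [AffineMap.homothety_apply, vsub_eq_sub, vadd_eq_add, smul_sub, sub_smul 1 s z, one_smul]
        abel
      rwa [e] at h3
    have hmeas : MeasurableSet (AffineMap.homothety z (1 - s) '' K) :=
      (hK.compact.image (AffineMap.homothety_continuous z (1 - s))).measurableSet
    have hfin : volume (AffineMap.homothety z (1 - s) '' K) ≠ ⊤ :=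
      ((measure_mono hKs).trans_lt hK.compact.measure_lt_top).ne
    rw [measure_sdiff hKs hmeas.nullMeasurableSet hfin, Measure.addHaar_image_homothety,
      finrank_euclideanSpace_fin, hVe, ← ENNReal.ofReal_mul (abs_nonneg _),
      ← ENNReal.ofReal_sub _ (by positivity)]
    apply ENNReal.ofReal_le_ofReal
    have hB := one_add_mul_le_pow (a := -s) (by linarith) n
    have h4 : |(1 - s) ^ n| = (1 - s) ^ n := abs_of_nonneg (pow_nonneg (by linarith) _)
    rw [h4]
    have h5 : (1 + -s) = 1 - s := by ring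
    rw [h5] at hB
    nlinarith [mul_le_mul_of_nonneg_right hB hV0.le, mul_nonneg hV0.le hs0]
  · refine (measure_mono inter_subset_left).trans ?_
    rw [hVe]
    apply ENNReal.ofReal_le_ofReal
    have : (1 : ℝ) ≤ (n + 1) * s := by
      have h0 : (0 : ℝ) ≤ n := Nat.cast_nonneg n
      nlinarith
    nlinarith

lemma lintegral_radial_lt_top {K : Set (E n)} (hK : IsConvexBody K) {q : ℝ} (hq : 0 < q)
    (hq1 : q < 1) {u : E n} (hu : u ≠ 0) :
    ∫⁻ y in K, ENNReal.ofReal (radial (translate K y) u ^ (-q)) < ⊤ := by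
  rw [lintegral_radial hK hq hu]
  obtain ⟨A, hA0, hA⟩ := exit_bound hK u
  have hsplit : Ioi (0 : ℝ) = Ioc 0 1 ∪ Ioi 1 := by
    rw [Ioc_union_Ioi_eq_Ioi zero_le_one]
  rw [hsplit]
  refine (lintegral_union_le _ _ _).trans_lt (ENNReal.add_lt_top.2 ⟨?_, ?_⟩)
  · have h1 : IntegrableOn (fun r : ℝ => q * A * r ^ (-q)) (Ioc 0 1) := by
      have := (intervalIntegral.intervalIntegrable_rpow' (a := 0) (b := 1) (r := -q)
        (by linarith)).const_mul (q * A)
      rwa [intervalIntegrable_iff_integrableOn_Ioc_of_le zero_le_one] at this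
    refine lt_of_le_of_lt ?_ (Integrable.lintegral_lt_top h1)
    refine setLIntegral_mono' measurableSet_Ioc fun r hr => ?_
    have hr0 : 0 < r := hr.1
    refine (mul_le_mul_right (hA r hr0) _).trans ?_
    rw [← ENNReal.ofReal_mul (by positivity)]
    apply ENNReal.ofReal_le_ofReal
    have : r ^ (-q) = r ^ (-q - 1) * r := by
      conv_rhs => rw [← Real.rpow_add_one hr0.ne']
      congr 1; ring
    rw [this]
    apply le_of_eq
    ring
  · calc ∫⁻ r in Ioi (1 : ℝ), ENNReal.ofReal (q * r ^ (-q - 1)) * volume (K ∩ {y | y + r • u ∉ K})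
        ≤ ∫⁻ r in Ioi (1 : ℝ), ENNReal.ofReal (q * r ^ (-q - 1)) * volume K := by
          refine lintegral_mono fun r => ?_
          exact mul_le_mul_right (measure_mono inter_subset_left) _
      _ = ENNReal.ofReal ((1 : ℝ) ^ (-q)) * volume K := by
          rw [lintegral_mul_const' _ _ hK.compact.measure_lt_top.ne, lintegral_tail hq one_pos]
      _ < ⊤ := ENNReal.mul_lt_top ENNReal.ofReal_lt_top hK.compact.measure_lt_top

lemma lintegral_inner_lt_top {K : Set (E n)} (hK : IsConvexBody K) {q : ℝ} (hq : 0 < q)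
    (hq1 : q < 1) (u : E n) :
    ∫⁻ ξ, ENNReal.ofReal (CC q * |⟪u, ξ⟫| ^ q * w K ξ) < ⊤ := by
  rcases eq_or_ne u 0 with rfl | hu
  · simp [Real.zero_rpow hq.ne']
  · rw [← lintegral_radial_eq hK hq (by linarith) hu]
    exact lintegral_radial_lt_top hK hq hq1 hu

/-- the density of order `q` is integrable -/
lemma lintegral_norm_lt_top {K : Set (E n)} (hK : IsConvexBody K) {q : ℝ} (hq : 0 < q)
    (hq1 : q < 1) :
    ∫⁻ ξ, ENNReal.ofReal (CC q * ‖ξ‖ ^ q * w K ξ) < ⊤ := by
  have hC := CC_pos hq (by linarith)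
  rcases Nat.eq_zero_or_pos n with rfl | hn
  · have : ∀ ξ : E 0, ENNReal.ofReal (CC q * ‖ξ‖ ^ q * w K ξ) = 0 := by
      intro ξ
      have : ξ = 0 := Subsingleton.elim _ _
      simp [this, Real.zero_rpow hq.ne']
    simp [this]
  have hne : Nonempty (Fin n) := ⟨⟨0, hn⟩⟩
  have hb : ∀ ξ : E n, ENNReal.ofReal (CC q * ‖ξ‖ ^ q * w K ξ) ≤
      ∑ i : Fin n, ENNReal.ofReal ((n : ℝ) ^ q) *
        ENNReal.ofReal (CC q * |⟪(EuclideanSpace.single i (1 : ℝ) : E n), ξ⟫| ^ q * w K ξ) := by
    intro ξ
    obtain ⟨i, hi⟩ := Finite.exists_max (fun j => |ξ j|)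
    refine le_trans ?_ (Finset.single_le_sum (f := fun i : Fin n => ENNReal.ofReal ((n : ℝ) ^ q) *
        ENNReal.ofReal (CC q * |⟪(EuclideanSpace.single i (1 : ℝ) : E n), ξ⟫| ^ q * w K ξ))
        (fun _ _ => zero_le) (Finset.mem_univ i))
    rw [← ENNReal.ofReal_mul (by positivity)]
    apply ENNReal.ofReal_le_ofReal
    have h1 : ⟪(EuclideanSpace.single i (1 : ℝ) : E n), ξ⟫ = ξ i := by
      rw [EuclideanSpace.inner_single_left]; simp
    rw [h1]
    have h2 : ‖ξ‖ ≤ n * |ξ i| := by
      have h3 : ‖ξ‖ ≤ ∑ j, |ξ j| := by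
        rw [EuclideanSpace.norm_eq]
        refine Real.sqrt_le_iff.2 ⟨Finset.sum_nonneg fun _ _ => abs_nonneg _, ?_⟩
        simp only [Real.norm_eq_abs]
        exact Finset.sum_sq_le_sq_sum_of_nonneg (fun _ _ => abs_nonneg _)
      refine h3.trans ?_
      calc ∑ j, |ξ j| ≤ ∑ _j : Fin n, |ξ i| := Finset.sum_le_sum fun j _ => hi j
        _ = n * |ξ i| := by simp
    have h4 : ‖ξ‖ ^ q ≤ (n : ℝ) ^ q * |ξ i| ^ q := by
      rw [← Real.mul_rpow (by positivity) (abs_nonneg _)]
      exact Real.rpow_le_rpow (norm_nonneg _) h2 hq.le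
    calc CC q * ‖ξ‖ ^ q * w K ξ ≤ CC q * ((n : ℝ) ^ q * |ξ i| ^ q) * w K ξ :=
          mul_le_mul_of_nonneg_right (mul_le_mul_of_nonneg_left h4 hC.le) (w_nonneg K ξ)
      _ = (n : ℝ) ^ q * (CC q * |ξ i| ^ q * w K ξ) := by ring
  refine (lintegral_mono hb).trans_lt ?_
  have hwm : Measurable (w K) := (w_continuous hK.compact).measurable
  rw [lintegral_finsetSum' _ (fun i _ => by fun_prop)]
  refine ENNReal.sum_lt_top.2 fun i _ => ?_
  rw [lintegral_const_mul' _ _ ENNReal.ofReal_ne_top]
  exact ENNReal.mul_lt_top ENNReal.ofReal_lt_top (lintegral_inner_lt_top hK hq hq1 _)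

lemma aestronglyMeasurable_radial {K : Set (E n)} (hK : IsConvexBody K) {u : E n} (hu : u ≠ 0) :
    AEStronglyMeasurable (fun y => radial (translate K y) u) (volume.restrict K) := by
  have hm := hK.compact.measurableSet
  have h1 : Measurable (K.indicator fun y => radial (translate K y) u) := by
    apply measurable_of_Ici
    intro r
    rcases le_or_gt r 0 with hr | hr
    · have : (K.indicator fun y => radial (translate K y) u) ⁻¹' Ici r = univ := by
        ext y
        simp only [mem_preimage, mem_Ici, mem_univ, iff_true]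
        exact hr.trans (indicator_nonneg (fun _ _ => radial_nonneg _ _) _)
      rw [this]
      exact MeasurableSet.univ
    · have : (K.indicator fun y => radial (translate K y) u) ⁻¹' Ici r =
          K ∩ {y | y + r • u ∈ K} := by
        ext y
        simp only [mem_preimage, mem_Ici, mem_inter_iff, mem_ofPred_eq]
        by_cases hy : y ∈ K
        · rw [indicator_of_mem hy, mem_iff_le_radial hK hy hu hr.le]
          exact ⟨fun h => ⟨hy, h⟩, fun h => h.2⟩
        · rw [indicator_of_notMem hy]
          exact ⟨fun h => absurd h (not_le.2 hr), fun h => absurd h.1 hy⟩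
      rw [this]
      exact hm.inter (hm.preimage (measurable_id.add_const _))
  refine (h1.aestronglyMeasurable (μ := volume.restrict K)).congr ?_
  rw [EventuallyEq, ae_restrict_iff' hm]
  exact Eventually.of_forall fun y hy => indicator_of_mem hy _

lemma integral_radial_eq {K : Set (E n)} (hK : IsConvexBody K) {q : ℝ} (hq : 0 < q) (hq1 : q < 1)
    {u : E n} (hu : u ≠ 0) :
    IntegrableOn (fun y => radial (translate K y) u ^ (-q)) K ∧
    ENNReal.ofReal (∫ y in K, radial (translate K y) u ^ (-q)) =
      ∫⁻ ξ, ENNReal.ofReal (CC q * |⟪u, ξ⟫| ^ q * w K ξ) := by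
  have hmeas : AEStronglyMeasurable (fun y => radial (translate K y) u ^ (-q))
      (volume.restrict K) := by
    have := (aestronglyMeasurable_radial hK hu).aemeasurable.pow_const (-q)
    exact this.aestronglyMeasurable
  have hi : IntegrableOn (fun y => radial (translate K y) u ^ (-q)) K := by
    refine ⟨hmeas, ?_⟩
    rw [hasFiniteIntegral_iff_ofReal (Eventually.of_forall fun y =>
      Real.rpow_nonneg (radial_nonneg _ _) _)]
    exact lintegral_radial_lt_top hK hq hq1 hu
  refine ⟨hi, ?_⟩
  rw [ofReal_integral_eq_lintegral_ofReal hi (Eventually.of_forall fun y =>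
      Real.rpow_nonneg (radial_nonneg _ _) _), lintegral_radial_eq hK hq (by linarith) hu]

lemma radialMean_rpow {K : Set (E n)} {p : ℝ} (hp : p ≠ 0) (u : E n) :
    radialMean K p u ^ p = (volume.real K)⁻¹ * ∫ x in K, radial (translate K x) u ^ p := by
  unfold radialMean
  have h0 : 0 ≤ (volume.real K)⁻¹ * ∫ x in K, radial (translate K x) u ^ p :=
    mul_nonneg (by positivity) (integral_nonneg fun y => Real.rpow_nonneg (radial_nonneg _ _) _)
  rw [← Real.rpow_mul h0, one_div_mul_cancel hp, Real.rpow_one]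

lemma radialMean_pos {K : Set (E n)} (hK : IsConvexBody K) {q : ℝ} (hq : 0 < q) (hq1 : q < 1)
    {u : E n} (hu : u ≠ 0) : 0 < radialMean K (-q) u := by
  unfold radialMean
  apply Real.rpow_pos_of_pos
  have hV := hK.volume_real_pos
  refine mul_pos (by positivity) ?_
  have hi := (integral_radial_eq hK hq hq1 hu).1
  rw [setIntegral_pos_iff_support_of_nonneg_ae (Eventually.of_forall fun y =>
      Real.rpow_nonneg (radial_nonneg _ _) _) hi]
  have hsub : interior K ⊆ (Function.support fun y => radial (translate K y) u ^ (-q)) ∩ K :=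
    fun y hy => ⟨(Real.rpow_pos_of_pos (radial_pos hK hy hu) _).ne', interior_subset hy⟩
  exact lt_of_lt_of_le (isOpen_interior.measure_pos _ hK.interior_nonempty) (measure_mono hsub)

end Pool.Agent.Q156.RM
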