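import Pool.Agent.Q156.RM.C

set_option autoImplicit false

open MeasureTheory Set Filter Topology Real
open scoped ENNReal FourierTransform RealInnerProductSpace

namespace Pool.Agent.Q156.RM

variable {n : ℕ}

/-- the star body with radial function `ρ` embeds in `L^q` -/
def EmbedsInLq (ρ : E n → ℝ) (q : ℝ) : Prop :=
  ∃ μ : Measure (Metric.sphere (0 : E n) 1), IsFiniteMeasure μ ∧
    ∀ x : E n, x ≠ 0 → ρ x ^ (-q) = ∫ u, |⟪x, (u : E n)⟫| ^ q ∂μ

/-- the direction of a vector -/
noncomputable def dirn (e : Metric.sphere (0 : E n) 1) (ξ : E n) : Metric.sphere (0 : E n) 1 :=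
  ⟨if ξ = 0 then (e : E n) else ‖ξ‖⁻¹ • ξ, by
    split_ifs with h
    · exact e.2
    · rw [mem_sphere_zero_iff_norm, norm_smul, norm_inv, norm_norm,
        inv_mul_cancel₀ (norm_ne_zero_iff.2 h)]⟩

lemma measurable_dirn (e : Metric.sphere (0 : E n) 1) : Measurable (dirn e) := by
  apply Measurable.subtype_mk
  refine Measurable.ite (measurableSet_eq) measurable_const ?_
  fun_prop

lemma dirn_inner (e : Metric.sphere (0 : E n) 1) (x ξ : E n) {q : ℝ} (hq : 0 < q) :
    |⟪x, (dirn e ξ : E n)⟫| ^ q * ‖ξ‖ ^ q = |⟪x, ξ⟫| ^ q := by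
  by_cases h : ξ = 0
  · subst h
    simp [Real.zero_rpow hq.ne']
  · have hξ : 0 < ‖ξ‖ := norm_pos_iff.2 h
    have e1 : (dirn e ξ : E n) = ‖ξ‖⁻¹ • ξ := by simp [dirn, h]
    rw [e1, real_inner_smul_right, ← Real.mul_rpow (abs_nonneg _) (norm_nonneg _), abs_mul,
      abs_of_pos (by positivity : 0 < ‖ξ‖⁻¹)]
    congr 1
    field_simp

theorem embeds {K : Set (E n)} (hK : IsConvexBody K) {q : ℝ} (hq : 0 < q) (hq1 : q < 1) :
    EmbedsInLq (radialMean K (-q)) q := by
  rcases Nat.eq_zero_or_pos n with rfl | hn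
  · refine ⟨0, inferInstance, fun x hx => absurd (Subsingleton.elim x 0) hx⟩
  have hC := CC_pos hq (by linarith)
  have hV := hK.volume_real_pos
  set V := volume.real K with hVd
  let e : Metric.sphere (0 : E n) 1 := ⟨EuclideanSpace.single ⟨0, hn⟩ (1 : ℝ), by simp⟩
  have hwm : Measurable (w K) := (w_continuous hK.compact).measurable
  set d : E n → ℝ≥0∞ := fun ξ => ENNReal.ofReal (V⁻¹ * (CC q * ‖ξ‖ ^ q * w K ξ)) with hd
  have hdm : Measurable d := by fun_prop
  set ν : Measure (E n) := volume.withDensity d with hν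
  have hfin : IsFiniteMeasure ν := by
    refine ⟨?_⟩
    rw [hν, withDensity_apply _ MeasurableSet.univ, Measure.restrict_univ]
    have : ∀ ξ, d ξ = ENNReal.ofReal V⁻¹ * ENNReal.ofReal (CC q * ‖ξ‖ ^ q * w K ξ) := fun ξ =>
      ENNReal.ofReal_mul (by positivity)
    simp_rw [this]
    rw [lintegral_const_mul' _ _ ENNReal.ofReal_ne_top]
    exact ENNReal.mul_lt_top ENNReal.ofReal_lt_top (lintegral_norm_lt_top hK hq hq1)
  refine ⟨ν.map (dirn e), inferInstance, fun x hx => ?_⟩
  rw [radialMean_rpow (by linarith : -q ≠ 0)]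
  obtain ⟨hi, hint⟩ := integral_radial_eq hK hq hq1 hx
  have h0 : 0 ≤ V⁻¹ * ∫ y in K, radial (translate K y) x ^ (-q) :=
    mul_nonneg (by positivity) (integral_nonneg fun y => Real.rpow_nonneg (radial_nonneg _ _) _)
  have hcont : Continuous fun u : Metric.sphere (0 : E n) 1 => |⟪x, (u : E n)⟫| ^ q := by
    refine Continuous.rpow_const ?_ (fun _ => Or.inr hq.le)
    fun_prop
  rw [integral_eq_lintegral_of_nonneg_ae (Eventually.of_forall fun u =>
    Real.rpow_nonneg (abs_nonneg _) _) hcont.aestronglyMeasurable]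
  rw [lintegral_map (by fun_prop) (measurable_dirn e), hν,
    lintegral_withDensity_eq_lintegral_mul _ hdm (by
      have := (measurable_dirn e)
      exact (hcont.measurable.comp this).ennreal_ofReal)]
  have h1 : ∀ ξ, (d * fun ξ => ENNReal.ofReal (|⟪x, (dirn e ξ : E n)⟫| ^ q)) ξ =
      ENNReal.ofReal V⁻¹ * ENNReal.ofReal (CC q * |⟪x, ξ⟫| ^ q * w K ξ) := by
    intro ξ
    rw [Pi.mul_apply, hd]
    dsimp only
    rw [← ENNReal.ofReal_mul (mul_nonneg (by positivity) (mul_nonneg (by positivity)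
      (w_nonneg K ξ))), ← ENNReal.ofReal_mul (by positivity), ← dirn_inner e x ξ hq]
    congr 1
    ring
  rw [lintegral_congr h1, lintegral_const_mul' _ _ ENNReal.ofReal_ne_top, ← hint,
    ← ENNReal.ofReal_mul (by positivity), ENNReal.toReal_ofReal h0]

end Pool.Agent.Q156.RM
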