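import Pool.Agent.Q156.RM.D

set_option autoImplicit false

open MeasureTheory Set Filter Topology Real
open scoped ENNReal FourierTransform RealInnerProductSpace

namespace Pool.Agent.Q156.RM

variable {n : ℕ}

/-- the measure `r^(-q-1) dr` on the positive half line -/
noncomputable def nu (q : ℝ) : Measure ℝ :=
  (volume.restrict (Ioi 0)).withDensity (fun r => ENNReal.ofReal (r ^ (-q - 1)))

/-- the measure with density `w K` -/
noncomputable def W (K : Set (E n)) : Measure (E n) :=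
  volume.withDensity (fun ξ => ENNReal.ofReal (w K ξ))

/-- the Lévy measure: the image of `W ⊗ nu` under `(ξ, r) ↦ r ξ` -/
noncomputable def Lam (K : Set (E n)) (q : ℝ) : Measure (E n) :=
  ((W K).prod (nu q)).map (fun z => z.2 • z.1)

instance (K : Set (E n)) (q : ℝ) : SFinite (Lam K q) := by unfold Lam nu W; infer_instance

lemma measurable_w {K : Set (E n)} (hK : IsCompact K) : Measurable (w K) :=
  (w_continuous hK).measurable

lemma lintegral_Lam {K : Set (E n)} (hK : IsCompact K) (q : ℝ) {f : E n → ℝ≥0∞}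
    (hf : Measurable f) :
    ∫⁻ ζ, f ζ ∂(Lam K q) = ∫⁻ ξ, ENNReal.ofReal (w K ξ) *
      ∫⁻ r in Ioi (0 : ℝ), ENNReal.ofReal (r ^ (-q - 1)) * f (r • ξ) := by
  have hwm := measurable_w hK
  have hsm : SFinite (nu q) := by unfold nu; infer_instance
  have hsW : SFinite (W K) := by unfold W; infer_instance
  have hg : Measurable fun z : E n × ℝ => f (z.2 • z.1) := hf.comp (by fun_prop)
  unfold Lam
  rw [lintegral_map hf (by fun_prop), lintegral_prod _ hg.aemeasurable]
  unfold W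
  rw [lintegral_withDensity_eq_lintegral_mul _ (by fun_prop) hg.lintegral_prod_right']
  apply lintegral_congr
  intro ξ
  rw [Pi.mul_apply]
  congr 1
  have hfr : Measurable fun r : ℝ => f (r • ξ) := hf.comp (by fun_prop)
  change ∫⁻ r, f (r • ξ) ∂(nu q) = _
  unfold nu
  rw [lintegral_withDensity_eq_lintegral_mul _ (by fun_prop) hfr]
  rfl

lemma lintegral_cos_Lam {K : Set (E n)} (hK : IsCompact K) {q : ℝ} (hq : 0 < q) (hq2 : q < 2)
    (u : E n) :
    ∫⁻ ζ, ENNReal.ofReal (1 - Real.cos (2 * π * ⟪u, ζ⟫)) ∂(Lam K q) =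
      ∫⁻ ξ, ENNReal.ofReal (cq q * (2 * π) ^ q * |⟪u, ξ⟫| ^ q * w K ξ) := by
  rw [lintegral_Lam hK q (by fun_prop)]
  apply lintegral_congr
  intro ξ
  have h1 : ∫⁻ r in Ioi (0 : ℝ), ENNReal.ofReal (r ^ (-q - 1)) *
      ENNReal.ofReal (1 - Real.cos (2 * π * ⟪u, r • ξ⟫)) =
      ENNReal.ofReal (|2 * π * ⟪u, ξ⟫| ^ q * cq q) := by
    rw [← cos_kernel_lintegral hq hq2]
    refine setLIntegral_congr_fun measurableSet_Ioi fun r hr => ?_
    have hr0 : 0 < r := hr
    rw [← ENNReal.ofReal_mul (by positivity)]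
    congr 3
    rw [real_inner_smul_right]
    congr 1
    ring
  rw [h1, ← ENNReal.ofReal_mul (w_nonneg K ξ)]
  congr 1
  rw [abs_mul, abs_of_pos (by positivity : (0 : ℝ) < 2 * π),
    Real.mul_rpow (by positivity) (abs_nonneg _)]
  ring

lemma lintegral_norm_lt_top' {K : Set (E n)} (hK : IsConvexBody K) {q : ℝ} (hq : 0 < q)
    (hq1 : q < 1) {c : ℝ} (hc : 0 ≤ c) :
    ∫⁻ ξ, ENNReal.ofReal (c * ‖ξ‖ ^ q * w K ξ) < ⊤ := by
  have hC := CC_pos hq (by linarith)
  have h1 : ∀ ξ : E n, ENNReal.ofReal (c * ‖ξ‖ ^ q * w K ξ) =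
      ENNReal.ofReal (c / CC q) * ENNReal.ofReal (CC q * ‖ξ‖ ^ q * w K ξ) := by
    intro ξ
    rw [← ENNReal.ofReal_mul (by positivity)]
    congr 1
    field_simp
  simp_rw [h1]
  rw [lintegral_const_mul' _ _ ENNReal.ofReal_ne_top]
  exact ENNReal.mul_lt_top ENNReal.ofReal_lt_top (lintegral_norm_lt_top hK hq hq1)

/-- the Lévy measure is finite off the origin -/
lemma Lam_tail {K : Set (E n)} (hK : IsConvexBody K) {q : ℝ} (hq : 0 < q) (hq1 : q < 1) {a : ℝ}
    (ha : 0 < a) : Lam K q {ζ | a < ‖ζ‖} < ⊤ := by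
  have hm : MeasurableSet {ζ : E n | a < ‖ζ‖} := measurableSet_lt measurable_const measurable_norm
  rw [← setLIntegral_one, ← lintegral_indicator hm, lintegral_Lam hK.compact q
    (measurable_const.indicator hm)]
  refine lt_of_le_of_lt ?_ (lintegral_norm_lt_top' hK hq hq1 (c := a ^ (-q) / q) (by positivity))
  refine lintegral_mono fun ξ => ?_
  dsimp only
  rcases eq_or_ne ξ 0 with rfl | hξ
  · have : ({ζ : E n | a < ‖ζ‖}).indicator (fun _ => (1 : ℝ≥0∞)) (0 : E n) = 0 := by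
      rw [indicator_of_notMem]
      simp [ha.le]
    simp only [smul_zero, this, mul_zero, lintegral_zero]
    exact zero_le
  have hξ0 : 0 < ‖ξ‖ := norm_pos_iff.2 hξ
  have h1 : ∫⁻ r in Ioi (0 : ℝ), ENNReal.ofReal (r ^ (-q - 1)) *
      ({ζ : E n | a < ‖ζ‖}).indicator (fun _ => (1 : ℝ≥0∞)) (r • ξ) =
      ENNReal.ofReal ((a / ‖ξ‖) ^ (-q) / q) := by
    have h2 : (fun r : ℝ => (Ioi (0 : ℝ)).indicator (fun r => ENNReal.ofReal (r ^ (-q - 1)) *
      ({ζ : E n | a < ‖ζ‖}).indicator (fun _ => (1 : ℝ≥0∞)) (r • ξ)) r) =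
      (Ioi (a / ‖ξ‖)).indicator fun r => ENNReal.ofReal (r ^ (-q - 1)) := by
      funext r
      by_cases hr : 0 < r
      · have hiff : r • ξ ∈ {ζ : E n | a < ‖ζ‖} ↔ a / ‖ξ‖ < r := by
          rw [mem_ofPred_eq, norm_smul, Real.norm_eq_abs, abs_of_pos hr, div_lt_iff₀ hξ0]
        rw [indicator_of_mem (show r ∈ Ioi (0 : ℝ) from hr)]
        by_cases h : a / ‖ξ‖ < r
        · rw [indicator_of_mem (hiff.2 h), indicator_of_mem (show r ∈ Ioi (a / ‖ξ‖) from h),
            mul_one]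
        · rw [indicator_of_notMem (fun h' => h (hiff.1 h')),
            indicator_of_notMem (show r ∉ Ioi (a / ‖ξ‖) from h), mul_zero]
      · have h0 : 0 < a / ‖ξ‖ := by positivity
        rw [indicator_of_notMem (show r ∉ Ioi (0 : ℝ) from hr),
          indicator_of_notMem (show r ∉ Ioi (a / ‖ξ‖) from fun h => hr (h0.trans h))]
    rw [← lintegral_indicator measurableSet_Ioi, h2, lintegral_indicator measurableSet_Ioi]
    have h3 := lintegral_tail hq (show 0 < a / ‖ξ‖ by positivity)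
    simp_rw [ENNReal.ofReal_mul hq.le] at h3
    rw [lintegral_const_mul' _ _ ENNReal.ofReal_ne_top] at h3
    have h4 : ENNReal.ofReal ((a / ‖ξ‖) ^ (-q) / q) =
        ENNReal.ofReal q⁻¹ * ENNReal.ofReal ((a / ‖ξ‖) ^ (-q)) := by
      rw [← ENNReal.ofReal_mul (by positivity)]; congr 1; ring
    rw [h4, ← h3, ← mul_assoc, ← ENNReal.ofReal_mul (by positivity), inv_mul_cancel₀ hq.ne',
      ENNReal.ofReal_one, one_mul]
  rw [h1, ← ENNReal.ofReal_mul (w_nonneg K ξ)]
  apply ENNReal.ofReal_le_ofReal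
  rw [Real.div_rpow ha.le hξ0.le, Real.rpow_neg hξ0.le]
  have : 0 < ‖ξ‖ ^ q := by positivity
  apply le_of_eq
  field_simp

/-- the density of the Lévy measure -/
noncomputable def Gi (K : Set (E n)) (q : ℝ) (ζ : E n) : ℝ≥0∞ :=
  ∫⁻ r in Ioi (0 : ℝ), ENNReal.ofReal (r ^ (-q - 1 - n)) * ENNReal.ofReal (w K (r⁻¹ • ζ))

lemma measurable_Gi {K : Set (E n)} (hK : IsCompact K) (q : ℝ) : Measurable (Gi K q) := by
  have hwm := measurable_w hK
  unfold Gi
  have : Measurable fun z : E n × ℝ =>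
      ENNReal.ofReal (z.2 ^ (-q - 1 - n)) * ENNReal.ofReal (w K (z.2⁻¹ • z.1)) := by
    have h2 : Measurable fun z : E n × ℝ => w K (z.2⁻¹ • z.1) := hwm.comp (by fun_prop)
    fun_prop
  exact this.lintegral_prod_right'

lemma Lam_eq {K : Set (E n)} (hK : IsCompact K) (q : ℝ) :
    Lam K q = volume.withDensity (Gi K q) := by
  have hwm := measurable_w hK
  ext A hA
  rw [← setLIntegral_one, ← lintegral_indicator hA, lintegral_Lam hK q
    (measurable_const.indicator hA), withDensity_apply _ hA, ← lintegral_indicator hA]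
  have e1 : ∀ ξ, ENNReal.ofReal (w K ξ) * ∫⁻ r in Ioi (0 : ℝ), ENNReal.ofReal (r ^ (-q - 1)) *
      A.indicator (fun _ => (1 : ℝ≥0∞)) (r • ξ) =
      ∫⁻ r in Ioi (0 : ℝ), ENNReal.ofReal (w K ξ) * (ENNReal.ofReal (r ^ (-q - 1)) *
      A.indicator (fun _ => (1 : ℝ≥0∞)) (r • ξ)) := fun ξ =>
    (lintegral_const_mul' _ _ ENNReal.ofReal_ne_top).symm
  simp_rw [e1]
  have hind : Measurable (A.indicator (fun _ : E n => (1 : ℝ≥0∞))) := measurable_const.indicator hA
  rw [lintegral_lintegral_swap]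
  · have e2 : ∀ r ∈ Ioi (0 : ℝ), ∫⁻ ξ, ENNReal.ofReal (w K ξ) * (ENNReal.ofReal (r ^ (-q - 1)) *
      A.indicator (fun _ => (1 : ℝ≥0∞)) (r • ξ)) =
      ∫⁻ ζ, A.indicator (fun _ => (1 : ℝ≥0∞)) ζ * (ENNReal.ofReal (r ^ (-q - 1 - n)) *
        ENNReal.ofReal (w K (r⁻¹ • ζ))) := by
      intro r hr
      have hr0 : 0 < r := hr
      set f : E n → ℝ≥0∞ := fun ζ => ENNReal.ofReal (w K (r⁻¹ • ζ)) *
        (ENNReal.ofReal (r ^ (-q - 1)) * A.indicator (fun _ => (1 : ℝ≥0∞)) ζ) with hf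
      have hfm : Measurable f := by
        have h2 : Measurable fun ζ : E n => w K (r⁻¹ • ζ) := hwm.comp (by fun_prop)
        fun_prop
      have e3 : ∀ ξ, ENNReal.ofReal (w K ξ) * (ENNReal.ofReal (r ^ (-q - 1)) *
          A.indicator (fun _ => (1 : ℝ≥0∞)) (r • ξ)) = f (r • ξ) := by
        intro ξ
        rw [hf]
        dsimp only
        rw [smul_smul, inv_mul_cancel₀ hr0.ne', one_smul]
      simp_rw [e3]
      have e4 : ∫⁻ ξ, f (r • ξ) = ∫⁻ ζ, f ζ ∂(Measure.map (fun x : E n => r • x) volume) :=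
        (lintegral_map hfm (by fun_prop)).symm
      rw [e4, Measure.map_addHaar_smul _ hr0.ne', lintegral_smul_measure, smul_eq_mul,
        ← lintegral_const_mul' _ _ ENNReal.ofReal_ne_top, finrank_euclideanSpace_fin]
      apply lintegral_congr
      intro ζ
      rw [hf]
      dsimp only
      have e5 : ENNReal.ofReal (r ^ (-q - 1 - n)) =
          ENNReal.ofReal |(r ^ n)⁻¹| * ENNReal.ofReal (r ^ (-q - 1)) := by
        rw [← ENNReal.ofReal_mul (abs_nonneg _), abs_of_pos (by positivity),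
          Real.rpow_sub_natCast hr0.ne']
        congr 1
        field_simp
      rw [e5]
      ring
    rw [setLIntegral_congr_fun measurableSet_Ioi e2, lintegral_lintegral_swap]
    · apply lintegral_congr
      intro ζ
      by_cases h : ζ ∈ A
      · rw [indicator_of_mem h, indicator_of_mem h]
        simp only [one_mul]
        rfl
      · rw [indicator_of_notMem h, indicator_of_notMem h]
        simp
    · have h2 : Measurable fun z : ℝ × E n => w K (z.1⁻¹ • z.2) := hwm.comp (by fun_prop)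
      have h3 : Measurable fun z : ℝ × E n => A.indicator (fun _ => (1 : ℝ≥0∞)) z.2 :=
        hind.comp measurable_snd
      have : Measurable (Function.uncurry fun (r : ℝ) (ζ : E n) =>
          A.indicator (fun _ => (1 : ℝ≥0∞)) ζ * (ENNReal.ofReal (r ^ (-q - 1 - n)) *
            ENNReal.ofReal (w K (r⁻¹ • ζ)))) := by
        unfold Function.uncurry
        fun_prop
      exact this.aemeasurable
  · have h2 : Measurable fun z : E n × ℝ => w K z.1 := hwm.comp measurable_fst
    have h3 : Measurable fun z : E n × ℝ => A.indicator (fun _ => (1 : ℝ≥0∞)) (z.2 • z.1) :=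
      hind.comp (by fun_prop)
    have : Measurable (Function.uncurry fun (ξ : E n) (r : ℝ) =>
        ENNReal.ofReal (w K ξ) * (ENNReal.ofReal (r ^ (-q - 1)) *
          A.indicator (fun _ => (1 : ℝ≥0∞)) (r • ξ))) := by
      unfold Function.uncurry
      fun_prop
    exact this.aemeasurable

lemma w_neg (K : Set (E n)) (ξ : E n) : w K (-ξ) = w K ξ := by
  unfold w
  have h : 𝓕 (ind K) (-ξ) = (starRingEnd ℂ) (𝓕 (ind K) ξ) := by
    rw [Real.fourier_eq, Real.fourier_eq, ← integral_conj]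
    apply integral_congr_ae
    refine Eventually.of_forall fun v => ?_
    dsimp only
    rw [inner_neg_right, neg_neg, Circle.smul_def, Circle.smul_def, smul_eq_mul, smul_eq_mul,
      map_mul]
    have h1 : (starRingEnd ℂ) (ind K v) = ind K v := by
      unfold ind
      by_cases hv : v ∈ K <;> simp [hv]
    rw [h1, ← Circle.coe_inv_eq_conj, ← AddChar.map_neg_eq_inv, neg_neg]
  rw [h, RCLike.norm_conj]

lemma Gi_neg (K : Set (E n)) (q : ℝ) (ζ : E n) : Gi K q (-ζ) = Gi K q ζ := by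
  unfold Gi
  simp_rw [smul_neg, w_neg]

end Pool.Agent.Q156.RM
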