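import Pool.Agent.Q156.RM.F

set_option autoImplicit false

open MeasureTheory Set Filter Topology Real
open scoped ENNReal FourierTransform RealInnerProductSpace ContDiff

namespace Pool.Agent.Q156.RM

variable {n : ℕ}

/-- the Fourier transform `φ̂(ξ) = ∫ φ(x) e^{-i⟨x,ξ⟩} dx` -/
noncomputable def ft (φ : E n → ℝ) (ξ : E n) : ℂ :=
  ∫ x, (φ x : ℂ) * Complex.exp (-(Complex.I * (⟪x, ξ⟫ : ℝ)))

/-- the value at `φ` of the Fourier transform of `Γ(p/2) ρ_{R_p K}^p` -/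
noncomputable def pairing (K : Set (E n)) (p : ℝ) (φ : E n → ℝ) : ℂ :=
  (Real.Gamma (p / 2) : ℂ) * ∫ x, ((radialMean K p x ^ p : ℝ) : ℂ) * ft φ x

/-- test functions supported off the origin -/
structure IsTest (φ : E n → ℝ) : Prop where
  smooth : ContDiff ℝ ∞ φ
  compact : HasCompactSupport φ
  off : (0 : E n) ∉ tsupport φ

/-- `∫ (1 - cos 2π⟨x,ζ⟩) dΛ(ζ)` -/
noncomputable def Nn (K : Set (E n)) (q : ℝ) (x : E n) : ℝ :=
  ∫ ζ, (1 - Real.cos (2 * π * ⟪x, ζ⟫)) ∂(Lam K q)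

section
variable {K : Set (E n)} (hK : IsConvexBody K) {q : ℝ} (hq : 0 < q) (hq1 : q < 1)
include hK hq hq1

lemma A0_lt_top : ∫⁻ ξ, ENNReal.ofReal (cq q * (2 * π) ^ q * ‖ξ‖ ^ q * w K ξ) < ⊤ := by
  have := cq_pos hq (by linarith)
  exact lintegral_norm_lt_top' hK hq hq1 (by positivity)

lemma lint_le (x : E n) : ∫⁻ ξ, ENNReal.ofReal (cq q * (2 * π) ^ q * |⟪x, ξ⟫| ^ q * w K ξ) ≤
    ENNReal.ofReal (‖x‖ ^ q) *
      ∫⁻ ξ, ENNReal.ofReal (cq q * (2 * π) ^ q * ‖ξ‖ ^ q * w K ξ) := by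
  have hc := cq_pos hq (by linarith)
  rw [← lintegral_const_mul' _ _ ENNReal.ofReal_ne_top]
  refine lintegral_mono fun ξ => ?_
  rw [← ENNReal.ofReal_mul (by positivity)]
  apply ENNReal.ofReal_le_ofReal
  have h1 : |⟪x, ξ⟫| ^ q ≤ ‖x‖ ^ q * ‖ξ‖ ^ q := by
    rw [← Real.mul_rpow (norm_nonneg _) (norm_nonneg _)]
    exact Real.rpow_le_rpow (abs_nonneg _) (abs_real_inner_le_norm x ξ) hq.le
  calc cq q * (2 * π) ^ q * |⟪x, ξ⟫| ^ q * w K ξ
      ≤ cq q * (2 * π) ^ q * (‖x‖ ^ q * ‖ξ‖ ^ q) * w K ξ :=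
        mul_le_mul_of_nonneg_right (mul_le_mul_of_nonneg_left h1 (by positivity)) (w_nonneg K ξ)
    _ = ‖x‖ ^ q * (cq q * (2 * π) ^ q * ‖ξ‖ ^ q * w K ξ) := by ring

lemma Nn_integrable (x : E n) :
    Integrable (fun ζ => 1 - Real.cos (2 * π * ⟪x, ζ⟫)) (Lam K q) := by
  refine ⟨by fun_prop, ?_⟩
  rw [hasFiniteIntegral_iff_ofReal (Eventually.of_forall fun ζ => by
    simpa using Real.cos_le_one _), lintegral_cos_Lam hK.compact hq (by linarith)]
  exact (lint_le hK hq hq1 x).trans_lt (ENNReal.mul_lt_top ENNReal.ofReal_lt_top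
    (A0_lt_top hK hq hq1))

lemma Nn_eq (x : E n) : Nn K q x =
    (∫⁻ ξ, ENNReal.ofReal (cq q * (2 * π) ^ q * |⟪x, ξ⟫| ^ q * w K ξ)).toReal := by
  unfold Nn
  rw [integral_eq_lintegral_of_nonneg_ae (Eventually.of_forall fun ζ => by
    simpa using Real.cos_le_one _) (by fun_prop), lintegral_cos_Lam hK.compact hq (by linarith)]

lemma Nn_nonneg (x : E n) : 0 ≤ Nn K q x := by
  rw [Nn_eq hK hq hq1]
  exact ENNReal.toReal_nonneg

lemma Nn_smul {c : ℝ} (hc : 0 < c) (x : E n) : Nn K q (c • x) = c ^ q * Nn K q x := by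
  rw [Nn_eq hK hq hq1, Nn_eq hK hq hq1]
  have h1 : ∀ ξ : E n, ENNReal.ofReal (cq q * (2 * π) ^ q * |⟪c • x, ξ⟫| ^ q * w K ξ) =
      ENNReal.ofReal (c ^ q) * ENNReal.ofReal (cq q * (2 * π) ^ q * |⟪x, ξ⟫| ^ q * w K ξ) := by
    intro ξ
    rw [← ENNReal.ofReal_mul (by positivity), real_inner_smul_left, abs_mul, abs_of_pos hc,
      Real.mul_rpow hc.le (abs_nonneg _)]
    congr 1
    ring
  simp_rw [h1]
  rw [lintegral_const_mul' _ _ ENNReal.ofReal_ne_top, ENNReal.toReal_mul,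
    ENNReal.toReal_ofReal (by positivity)]

lemma Nn_le : ∃ A : ℝ, 0 ≤ A ∧ ∀ x, Nn K q x ≤ A * ‖x‖ ^ q := by
  refine ⟨(∫⁻ ξ, ENNReal.ofReal (cq q * (2 * π) ^ q * ‖ξ‖ ^ q * w K ξ)).toReal,
    ENNReal.toReal_nonneg, fun x => ?_⟩
  rw [Nn_eq hK hq hq1]
  have h1 := lint_le hK hq hq1 x
  have h2 := ENNReal.toReal_mono (ENNReal.mul_lt_top ENNReal.ofReal_lt_top
    (A0_lt_top hK hq hq1)).ne h1
  rw [ENNReal.toReal_mul, ENNReal.toReal_ofReal (by positivity)] at h2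
  linarith

lemma radialMean_eq {x : E n} (hx : x ≠ 0) :
    radialMean K (-q) x ^ (-q) = q / volume.real K * Nn K q x := by
  rw [radialMean_rpow (by linarith : -q ≠ 0)]
  obtain ⟨hi, hint⟩ := integral_radial_eq hK hq hq1 hx
  have h0 : 0 ≤ ∫ y in K, radial (translate K y) x ^ (-q) :=
    integral_nonneg fun y => Real.rpow_nonneg (radial_nonneg _ _) _
  have h1 : ∫ y in K, radial (translate K y) x ^ (-q) = q * Nn K q x := by
    rw [← ENNReal.toReal_ofReal h0, hint, Nn_eq hK hq hq1]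
    have e : ∀ ξ : E n, ENNReal.ofReal (CC q * |⟪x, ξ⟫| ^ q * w K ξ) =
        ENNReal.ofReal q * ENNReal.ofReal (cq q * (2 * π) ^ q * |⟪x, ξ⟫| ^ q * w K ξ) := by
      intro ξ
      rw [← ENNReal.ofReal_mul hq.le]
      congr 1
      unfold CC
      ring
    simp_rw [e]
    rw [lintegral_const_mul' _ _ ENNReal.ofReal_ne_top, ENNReal.toReal_mul,
      ENNReal.toReal_ofReal hq.le]
  rw [h1]
  ring

lemma Lam_test_integrable {φ : E n → ℝ} (hφ : IsTest φ) : Integrable φ (Lam K q) := by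
  obtain ⟨a, ha, hb⟩ := Metric.isOpen_iff.1 (isClosed_tsupport φ).isOpen_compl 0 hφ.off
  obtain ⟨M, hM⟩ := hφ.compact.exists_bound_of_continuous hφ.smooth.continuous
  have hm : MeasurableSet {ζ : E n | a / 2 < ‖ζ‖} := measurableSet_lt measurable_const measurable_norm
  have hfin := Lam_tail hK hq hq1 (a := a / 2) (by positivity)
  have h1 : Integrable (({ζ : E n | a / 2 < ‖ζ‖}).indicator fun _ => M) (Lam K q) := by
    rw [integrable_indicator_iff hm]
    exact integrableOn_const hfin.ne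
  refine h1.mono' hφ.smooth.continuous.aestronglyMeasurable (Eventually.of_forall fun ζ => ?_)
  by_cases h : a / 2 < ‖ζ‖
  · rw [indicator_of_mem (show ζ ∈ {ζ : E n | a / 2 < ‖ζ‖} from h)]
    exact hM ζ
  · rw [indicator_of_notMem (show ζ ∉ {ζ : E n | a / 2 < ‖ζ‖} from h)]
    have h2 : ζ ∉ tsupport φ := hb (by
      rw [Metric.mem_ball, dist_zero_right]
      push Not at h
      linarith)
    rw [image_eq_zero_of_notMem_tsupport h2, norm_zero]

omit hq hq1 in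
lemma Lam_neg (q : ℝ) (φ : E n → ℂ) : ∫ ζ, φ (-ζ) ∂(Lam K q) = ∫ ζ, φ ζ ∂(Lam K q) := by
  have hinv : (Lam K q).IsNegInvariant := by
    refine ⟨?_⟩
    rw [Lam_eq hK.compact]
    ext A hA
    have hA' : MeasurableSet (Neg.neg ⁻¹' A) := hA.preimage measurable_neg
    rw [Measure.neg_apply, withDensity_apply _ hA]
    have hA2 : MeasurableSet (-A) := hA'
    rw [withDensity_apply _ hA2, ← lintegral_indicator hA2, ← lintegral_indicator hA,
      ← lintegral_neg_eq_self]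
    apply lintegral_congr
    intro ζ
    by_cases h : ζ ∈ A
    · rw [indicator_of_mem (by simpa using h), indicator_of_mem h, Gi_neg]
    · rw [indicator_of_notMem (by simpa using h), indicator_of_notMem h]
  exact integral_neg_eq_self φ (Lam K q)

end

end Pool.Agent.Q156.RM
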