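import Pool.Agent.Q156.RM.G

set_option autoImplicit false

open MeasureTheory Set Filter Topology Real
open scoped ENNReal FourierTransform RealInnerProductSpace ContDiff SchwartzMap

namespace Pool.Agent.Q156.RM

variable {n : ℕ}

lemma cos_eq_char (t : ℝ) : ((Real.cos (2 * π * t) : ℝ) : ℂ) =
    (((Real.fourierChar t : Circle) : ℂ) + ((Real.fourierChar (-t) : Circle) : ℂ)) / 2 := by
  rw [Real.fourierChar_apply, Real.fourierChar_apply, Complex.ofReal_cos, Complex.cos]
  congr 2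
  congr 1
  push_cast
  ring

/-- Fourier inversion for a Schwartz function -/
lemma inversion (f : 𝓢(E n, ℂ)) (ζ : E n) :
    ∫ η, ((Real.fourierChar ⟪η, ζ⟫ : Circle) : ℂ) * (𝓕 (f : E n → ℂ)) η = f ζ := by
  have h1 : 𝓕⁻ (𝓕 f) = f := FourierTransform.fourierInv_fourier_eq f
  have h2 : (𝓕⁻ (𝓕 f)) ζ = f ζ := by rw [h1]
  rw [SchwartzMap.fourierInv_coe, SchwartzMap.fourier_coe, Real.fourierInv_eq] at h2
  rw [← h2]
  rfl

lemma inner_integral (f : 𝓢(E n, ℂ)) (ζ : E n) :
    ∫ η, ((1 - Real.cos (2 * π * ⟪η, ζ⟫) : ℝ) : ℂ) * (𝓕 (f : E n → ℂ)) η =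
      f 0 - (f ζ + f (-ζ)) / 2 := by
  have hF : Integrable (𝓕 (f : E n → ℂ)) := by
    rw [← SchwartzMap.fourier_coe]
    exact (𝓕 f).integrable
  have hi : ∀ z : E n, Integrable fun η => ((Real.fourierChar ⟪η, z⟫ : Circle) : ℂ) * (𝓕 (f : E n → ℂ)) η := by
    intro z
    refine hF.bdd_mul (c := 1) ?_ (Eventually.of_forall fun η => ?_)
    · have : Continuous fun η : E n => ((Real.fourierChar ⟪η, z⟫ : Circle) : ℂ) := by
        have := Real.continuous_fourierChar
        fun_prop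
      exact this.aestronglyMeasurable
    · simp
  have e : ∀ η, ((1 - Real.cos (2 * π * ⟪η, ζ⟫) : ℝ) : ℂ) * (𝓕 (f : E n → ℂ)) η =
      ((Real.fourierChar ⟪η, (0 : E n)⟫ : Circle) : ℂ) * (𝓕 (f : E n → ℂ)) η -
      ((((Real.fourierChar ⟪η, ζ⟫ : Circle) : ℂ) * (𝓕 (f : E n → ℂ)) η) +
        (((Real.fourierChar ⟪η, -ζ⟫ : Circle) : ℂ) * (𝓕 (f : E n → ℂ)) η)) / 2 := by
    intro η
    rw [Complex.ofReal_sub, cos_eq_char, inner_neg_right, inner_zero_right]
    simp only [AddChar.map_zero_eq_one, Circle.coe_one, Complex.ofReal_one]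
    ring
  have hsum : Integrable fun η =>
      ((((Real.fourierChar ⟪η, ζ⟫ : Circle) : ℂ) * (𝓕 (f : E n → ℂ)) η) +
        (((Real.fourierChar ⟪η, -ζ⟫ : Circle) : ℂ) * (𝓕 (f : E n → ℂ)) η)) / 2 :=
    ((hi ζ).add (hi (-ζ))).div_const 2
  rw [integral_congr_ae (Eventually.of_forall e), integral_sub (hi 0) hsum, integral_div,
    integral_add (hi ζ) (hi (-ζ)), inversion, inversion, inversion]

section
variable {K : Set (E n)} (hK : IsConvexBody K) {q : ℝ} (hq : 0 < q) (hq1 : q < 1)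
include hK hq hq1

omit hK hq hq1 in
lemma Nn_measurable : Measurable (Nn K q) := by
  have h : StronglyMeasurable (Function.uncurry fun (x ζ : E n) =>
      1 - Real.cos (2 * π * ⟪x, ζ⟫)) := by
    have : Continuous (Function.uncurry fun (x ζ : E n) =>
      1 - Real.cos (2 * π * ⟪x, ζ⟫)) := by
      unfold Function.uncurry
      fun_prop
    exact this.stronglyMeasurable
  exact (h.integral_prod_right (ν := Lam K q)).measurable

lemma fubini (f : 𝓢(E n, ℂ)) :
    ∫ η, (Nn K q η : ℂ) * (𝓕 (f : E n → ℂ)) η =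
      ∫ ζ, (f 0 - (f ζ + f (-ζ)) / 2) ∂(Lam K q) := by
  have hFc : Continuous (𝓕 (f : E n → ℂ)) := by
    rw [← SchwartzMap.fourier_coe]
    exact (𝓕 f).continuous
  obtain ⟨A, hA0, hA⟩ := Nn_le hK hq hq1
  have e1 : ∀ η, (Nn K q η : ℂ) * (𝓕 (f : E n → ℂ)) η =
      ∫ ζ, ((1 - Real.cos (2 * π * ⟪η, ζ⟫) : ℝ) : ℂ) * (𝓕 (f : E n → ℂ)) η ∂(Lam K q) := by
    intro η
    rw [integral_mul_const, integral_complex_ofReal]
    rfl
  simp_rw [e1]
  rw [integral_integral_swap]
  · apply integral_congr_ae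
    exact Eventually.of_forall fun ζ => inner_integral f ζ
  · have hcont : Continuous (Function.uncurry fun (η ζ : E n) =>
        ((1 - Real.cos (2 * π * ⟪η, ζ⟫) : ℝ) : ℂ) * (𝓕 (f : E n → ℂ)) η) := by
      unfold Function.uncurry
      have h2 : Continuous fun z : E n × E n => (𝓕 (f : E n → ℂ)) z.1 := hFc.comp continuous_fst
      fun_prop
    rw [integrable_prod_iff hcont.aestronglyMeasurable]
    refine ⟨Eventually.of_forall fun η => ?_, ?_⟩
    · have h := ((Nn_integrable hK hq hq1 η).ofReal (𝕜 := ℂ)).mul_const ((𝓕 (f : E n → ℂ)) η)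
      exact h
    · have e2 : ∀ η, ∫ ζ, ‖Function.uncurry (fun (η ζ : E n) =>
          ((1 - Real.cos (2 * π * ⟪η, ζ⟫) : ℝ) : ℂ) * (𝓕 (f : E n → ℂ)) η) (η, ζ)‖ ∂(Lam K q) =
          Nn K q η * ‖(𝓕 (f : E n → ℂ)) η‖ := by
        intro η
        unfold Nn
        rw [← integral_mul_const]
        apply integral_congr_ae
        refine Eventually.of_forall fun ζ => ?_
        simp only [Function.uncurry_apply_pair, norm_mul]
        rw [Complex.norm_real, Real.norm_eq_abs, abs_of_nonneg]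
        linarith [Real.cos_le_one (2 * π * ⟪η, ζ⟫)]
      simp_rw [e2]
      have h0 := (𝓕 f).integrable_pow_mul volume 0
      have h1 := (𝓕 f).integrable_pow_mul volume 1
      simp only [pow_zero, one_mul, pow_one, SchwartzMap.fourier_coe] at h0 h1
      have hb : Integrable fun η : E n => A * (‖(𝓕 (f : E n → ℂ)) η‖ +
          ‖η‖ * ‖(𝓕 (f : E n → ℂ)) η‖) := (h0.add h1).const_mul A
      refine hb.mono' ?_ (Eventually.of_forall fun η => ?_)
      · exact ((Nn_measurable (K := K) (q := q)).mul hFc.norm.measurable).aestronglyMeasurable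
      · have hN := Nn_nonneg hK hq hq1 η
        rw [Real.norm_eq_abs, abs_of_nonneg (mul_nonneg hN (norm_nonneg _))]
        have h3 : ‖η‖ ^ q ≤ 1 + ‖η‖ := by
          rcases le_or_gt ‖η‖ 1 with h | h
          · have := Real.rpow_le_one (norm_nonneg η) h hq.le
            linarith [norm_nonneg η]
          · have := Real.rpow_le_rpow_of_exponent_le h.le hq1.le
            rw [Real.rpow_one] at this
            linarith
        calc Nn K q η * ‖(𝓕 (f : E n → ℂ)) η‖ ≤ (A * ‖η‖ ^ q) * ‖(𝓕 (f : E n → ℂ)) η‖ :=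
              mul_le_mul_of_nonneg_right (hA η) (norm_nonneg _)
          _ ≤ (A * (1 + ‖η‖)) * ‖(𝓕 (f : E n → ℂ)) η‖ :=
              mul_le_mul_of_nonneg_right (mul_le_mul_of_nonneg_left h3 hA0) (norm_nonneg _)
          _ = A * (‖(𝓕 (f : E n → ℂ)) η‖ + ‖η‖ * ‖(𝓕 (f : E n → ℂ)) η‖) := by ring

omit hK hq hq1 in
/-- the Schwartz function given by a test function -/
lemma exists_schwartz {φ : E n → ℝ} (hφ : IsTest φ) :
    ∃ f : 𝓢(E n, ℂ), ∀ x, f x = (φ x : ℂ) := by
  have hg₁ : HasCompactSupport (Complex.ofRealCLM ∘ φ) := hφ.compact.comp_left rfl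
  have hg₂ : ContDiff ℝ ∞ (Complex.ofRealCLM ∘ φ) := by
    have := hφ.smooth
    fun_prop
  exact ⟨hg₁.toSchwartzMap hg₂, fun x => rfl⟩

omit hK hq hq1 in
lemma ft_eq (φ : E n → ℝ) (f : 𝓢(E n, ℂ)) (hf : ∀ x, f x = (φ x : ℂ)) (η : E n) :
    ft φ ((2 * π) • η) = (𝓕 (f : E n → ℂ)) η := by
  unfold ft
  rw [Real.fourier_eq]
  apply integral_congr_ae
  refine Eventually.of_forall fun x => ?_
  dsimp only
  rw [hf, Circle.smul_def, smul_eq_mul, mul_comm, Real.fourierChar_apply, real_inner_smul_right]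
  congr 2
  push_cast
  ring

/-- the constant in the formula for the pairing -/
noncomputable def kap (K : Set (E n)) (q : ℝ) : ℝ :=
  -Real.Gamma (-q / 2) * ((2 * π) ^ n * (2 * π) ^ q * (q / volume.real K))

lemma kap_pos : 0 < kap K q := by
  have hV := hK.volume_real_pos
  have h1 : Real.Gamma (-q / 2) < 0 := by
    have h2 := Real.Gamma_add_one (s := -q / 2) (by linarith)
    have h3 : 0 < Real.Gamma (-q / 2 + 1) := Real.Gamma_pos_of_pos (by linarith)
    rw [h2] at h3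
    by_contra hc
    push Not at hc
    have : -q / 2 * Real.Gamma (-q / 2) ≤ 0 := mul_nonpos_of_nonpos_of_nonneg (by linarith) hc
    linarith
  unfold kap
  have : 0 < -Real.Gamma (-q / 2) := by linarith
  positivity

/-- **the pairing**: off the origin the Fourier transform is the measure `κ Λ` -/
theorem pairing_eq (hn : 0 < n) {φ : E n → ℝ} (hφ : IsTest φ) :
    pairing K (-q) φ = ((kap K q * ∫ ζ, φ ζ ∂(Lam K q) : ℝ) : ℂ) := by
  obtain ⟨f, hf⟩ := exists_schwartz hφ
  have hnt : Nontrivial (E n) := by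
    have : Nonempty (Fin n) := ⟨⟨0, hn⟩⟩
    infer_instance
  have h0 : φ 0 = 0 := image_eq_zero_of_notMem_tsupport hφ.off
  have e1 : ∫ x, ((radialMean K (-q) x ^ (-q) : ℝ) : ℂ) * ft φ x =
      ∫ x, ((q / volume.real K : ℝ) : ℂ) * ((Nn K q x : ℂ) * ft φ x) := by
    apply integral_congr_ae
    have : ∀ᵐ x : E n, x ≠ 0 := by
      rw [ae_iff]
      simp
    filter_upwards [this] with x hx
    rw [radialMean_eq hK hq hq1 hx]
    push_cast
    ring
  have e2 : ∫ x, (Nn K q x : ℂ) * ft φ x =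
      ((2 * π) ^ n : ℝ) • ∫ η, (Nn K q ((2 * π) • η) : ℂ) * ft φ ((2 * π) • η) := by
    have h := Measure.integral_comp_smul (volume : Measure (E n))
      (fun x => (Nn K q x : ℂ) * ft φ x) (2 * π)
    rw [h, finrank_euclideanSpace_fin, smul_smul, abs_of_pos (by positivity),
      mul_inv_cancel₀ (by positivity), one_smul]
  have e3 : ∫ η, (Nn K q ((2 * π) • η) : ℂ) * ft φ ((2 * π) • η) =
      (((2 * π) ^ q : ℝ) : ℂ) * ∫ η, (Nn K q η : ℂ) * (𝓕 (f : E n → ℂ)) η := by
    rw [← integral_const_mul]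
    apply integral_congr_ae
    refine Eventually.of_forall fun η => ?_
    dsimp only
    rw [ft_eq φ f hf, Nn_smul hK hq hq1 (by positivity)]
    push_cast
    ring
  have hint := Lam_test_integrable hK hq hq1 hφ
  have hintc : Integrable (fun ζ => (φ ζ : ℂ)) (Lam K q) := hint.ofReal
  have hneg := Lam_neg hK q (fun ζ => (φ ζ : ℂ))
  have hnegc : Integrable (fun ζ => (φ (-ζ) : ℂ)) (Lam K q) := by
    have ht : IsTest (fun ζ => φ (-ζ)) := by
      refine ⟨hφ.smooth.comp contDiff_neg, hφ.compact.comp_homeomorph (Homeomorph.neg _), ?_⟩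
      have h5 : tsupport (fun ζ => φ (-ζ)) = (Homeomorph.neg (E n)) ⁻¹' tsupport φ :=
        tsupport_comp_eq_preimage φ (Homeomorph.neg (E n))
      rw [h5]
      simpa using hφ.off
    exact (Lam_test_integrable hK hq hq1 ht).ofReal
  have e4 : ∫ ζ, (f 0 - (f ζ + f (-ζ)) / 2) ∂(Lam K q) = -((∫ ζ, φ ζ ∂(Lam K q) : ℝ) : ℂ) := by
    have e5 : ∀ ζ, f 0 - (f ζ + f (-ζ)) / 2 = -(((φ ζ : ℂ) + (φ (-ζ) : ℂ)) / 2) := by
      intro ζ
      rw [hf, hf, hf, h0]
      simp
    simp_rw [e5]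
    rw [integral_neg, integral_div, integral_add hintc hnegc, hneg, ← integral_complex_ofReal]
    ring
  unfold pairing
  rw [e1, integral_const_mul, e2, e3, fubini hK hq hq1 f, e4, Complex.real_smul]
  unfold kap
  push_cast
  ring

end

end Pool.Agent.Q156.RM
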