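import Pool.Agent.Q156.RM.H

set_option autoImplicit false

open MeasureTheory Set Filter Topology Real
open scoped ENNReal FourierTransform RealInnerProductSpace ContDiff

namespace Pool.Agent.Q156.RM

variable {n : ℕ}

/-- off the origin, the Fourier transform of `Γ(p/2) ρ_{R_p K}^p` is the function `f` -/
def GivenBy (K : Set (E n)) (p : ℝ) (f : E n → ℝ) : Prop :=
  LocallyIntegrableOn f {0}ᶜ ∧
    ∀ φ : E n → ℝ, IsTest φ → pairing K p φ = ((∫ x, φ x * f x : ℝ) : ℂ)

section
variable {K : Set (E n)} (hK : IsConvexBody K) {q : ℝ} (hq : 0 < q) (hq1 : q < 1)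
include hK hq hq1

lemma Gi_lintegral {a : ℝ} (ha : 0 < a) :
    ∫⁻ ζ in {ζ : E n | a < ‖ζ‖}, Gi K q ζ < ⊤ := by
  have hm : MeasurableSet {ζ : E n | a < ‖ζ‖} := measurableSet_lt measurable_const measurable_norm
  have h := Lam_tail hK hq hq1 ha
  rwa [Lam_eq hK.compact, withDensity_apply _ hm] at h

lemma Gi_ae_lt_top (hn : 0 < n) : ∀ᵐ ζ : E n, Gi K q ζ < ⊤ := by
  have hnt : Nontrivial (E n) := by
    have : Nonempty (Fin n) := ⟨⟨0, hn⟩⟩
    infer_instance
  have h1 : ∀ k : ℕ, ∀ᵐ ζ : E n, 1 / ((k : ℝ) + 1) < ‖ζ‖ → Gi K q ζ < ⊤ := by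
    intro k
    have hm : MeasurableSet {ζ : E n | 1 / ((k : ℝ) + 1) < ‖ζ‖} :=
      measurableSet_lt measurable_const measurable_norm
    have h := Gi_lintegral hK hq hq1 (a := 1 / ((k : ℝ) + 1)) (by positivity)
    have h2 := ae_lt_top (measurable_Gi hK.compact q) h.ne
    rwa [ae_restrict_iff' hm] at h2
  have h0 : ∀ᵐ x : E n, x ≠ 0 := by
    rw [ae_iff]
    simp
  filter_upwards [ae_all_iff.2 h1, h0] with ζ hζ hζ0
  obtain ⟨k, hk⟩ := exists_nat_one_div_lt (norm_pos_iff.2 hζ0)
  exact hζ k hk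

lemma Gi_locallyIntegrable (c : ℝ) :
    LocallyIntegrableOn (fun ζ => c * (Gi K q ζ).toReal) {(0 : E n)}ᶜ := by
  intro x hx
  have hx0 : 0 < ‖x‖ := norm_pos_iff.2 hx
  refine ⟨{ζ : E n | ‖x‖ / 2 < ‖ζ‖}, ?_, ?_⟩
  · apply mem_nhdsWithin_of_mem_nhds
    apply (isOpen_lt continuous_const continuous_norm).mem_nhds
    rw [mem_ofPred_eq]
    linarith
  · exact (integrable_toReal_of_lintegral_ne_top (measurable_Gi hK.compact q).aemeasurable
      (Gi_lintegral hK hq hq1 (by positivity)).ne).const_mul c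

/-- off the origin the Fourier transform is given by a nonnegative function -/
theorem givenBy_Gi (hn : 0 < n) : GivenBy K (-q) fun ζ => kap K q * (Gi K q ζ).toReal := by
  refine ⟨Gi_locallyIntegrable hK hq hq1 _, fun φ hφ => ?_⟩
  rw [pairing_eq hK hq hq1 hn hφ]
  congr 1
  rw [Lam_eq hK.compact, integral_withDensity_eq_integral_toReal_smul
    (measurable_Gi hK.compact q) (Gi_ae_lt_top hK hq hq1 hn), ← integral_const_mul]
  apply integral_congr_ae
  refine Eventually.of_forall fun ζ => ?_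
  dsimp only
  rw [smul_eq_mul]
  ring

/-- uniqueness of the representing function -/
theorem givenBy_unique (hn : 0 < n) {f : E n → ℝ} (hf : GivenBy K (-q) f) :
    ∀ᵐ ζ : E n, ζ ≠ 0 → f ζ = kap K q * (Gi K q ζ).toReal := by
  have hg := givenBy_Gi hK hq hq1 hn
  have hsub : LocallyIntegrableOn (fun ζ => f ζ - kap K q * (Gi K q ζ).toReal) {(0 : E n)}ᶜ :=
    hf.1.sub hg.1
  have h := (isOpen_compl_singleton (x := (0 : E n))).ae_eq_zero_of_integral_contDiff_smul_eq_zero
    hsub (fun φ h1 h2 h3 => by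
      have hφ : IsTest φ := ⟨h1, h2, fun h => h3 h rfl⟩
      have e1 := hf.2 φ hφ
      rw [hg.2 φ hφ] at e1
      have e2 := Complex.ofReal_injective e1
      have hi : ∀ g : E n → ℝ, LocallyIntegrableOn g {(0 : E n)}ᶜ →
          Integrable fun x => φ x * g x := by
        intro g hgl
        have h4 : IntegrableOn g (tsupport φ) :=
          hgl.integrableOn_compact_subset (fun x hx => h3 hx) h2
        have h5 : IntegrableOn (fun x => φ x * g x) (tsupport φ) := by
          obtain ⟨M, hM⟩ := h2.exists_bound_of_continuous h1.continuous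
          exact h4.bdd_mul (c := M) h1.continuous.aestronglyMeasurable
            (Eventually.of_forall hM)
        rw [← integrableOn_univ]
        refine h5.of_forall_sdiff_eq_zero MeasurableSet.univ fun x hx => ?_
        rw [image_eq_zero_of_notMem_tsupport hx.2, zero_mul]
      simp only [smul_eq_mul, mul_sub]
      rw [integral_sub (hi _ hf.1) (hi _ hg.1), ← e2, sub_self])
  filter_upwards [h] with ζ hζ h0
  have := hζ h0
  linarith

end

end Pool.Agent.Q156.RM
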