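import Pool.Agent.Q156.RM.I

set_option autoImplicit false

open MeasureTheory Set Filter Topology Real
open scoped ENNReal FourierTransform RealInnerProductSpace ContDiff

namespace Pool.Agent.Q156.RM

variable {n : ℕ}

/-- the cube `[-1/2, 1/2]^n` -/
def cube (n : ℕ) : Set (E n) := {x | ∀ i, |x i| ≤ 1 / 2}

lemma cube_isConvexBody (n : ℕ) : IsConvexBody (cube n) := by
  have hcl : IsClosed (cube n) := by
    have : cube n = ⋂ i, {x : E n | |x i| ≤ 1 / 2} := by
      ext x; simp [cube]
    rw [this]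
    exact isClosed_iInter fun i => isClosed_le (by fun_prop) continuous_const
  have hb : Bornology.IsBounded (cube n) := by
    rw [isBounded_iff_forall_norm_le]
    refine ⟨n, fun x hx => ?_⟩
    rw [EuclideanSpace.norm_eq]
    refine Real.sqrt_le_iff.2 ⟨by positivity, ?_⟩
    calc ∑ i, ‖x i‖ ^ 2 ≤ ∑ _i : Fin n, (1 : ℝ) := by
          refine Finset.sum_le_sum fun i _ => ?_
          have := hx i
          rw [Real.norm_eq_abs]
          nlinarith [abs_nonneg (x i)]
      _ = n := by simp
      _ ≤ (n : ℝ) ^ 2 := by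
          rcases Nat.eq_zero_or_pos n with rfl | hn
          · simp
          · have : (1 : ℝ) ≤ n := by exact_mod_cast hn
            nlinarith
  refine ⟨?_, Metric.isCompact_of_isClosed_isBounded hcl hb, ⟨0, ?_⟩⟩
  · intro x hx y hy a b ha hb' hab i
    have h1 := abs_le.1 (hx i)
    have h2 := abs_le.1 (hy i)
    rw [PiLp.add_apply, PiLp.smul_apply, PiLp.smul_apply, smul_eq_mul, smul_eq_mul, abs_le]
    constructor
    · nlinarith [mul_le_mul_of_nonneg_left h1.1 ha, mul_le_mul_of_nonneg_left h2.1 hb']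
    · nlinarith [mul_le_mul_of_nonneg_left h1.2 ha, mul_le_mul_of_nonneg_left h2.2 hb']
  · rw [mem_interior_iff_mem_nhds, Metric.mem_nhds_iff]
    refine ⟨1 / 2, by norm_num, fun x hx i => ?_⟩
    rw [Metric.mem_ball, dist_zero_right] at hx
    have := PiLp.norm_apply_le x i
    rw [Real.norm_eq_abs] at this
    linarith

/-- `sin(π y)/(π y)` -/
noncomputable def S (y : ℝ) : ℝ := ∫ s in (-(1 / 2) : ℝ)..(1 / 2), Real.cos (2 * π * (s * y))

/-- the one-dimensional Fourier transform -/
noncomputable def C1 (y : ℝ) : ℂ :=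
  ∫ s : ℝ, (Icc (-(1 / 2) : ℝ) (1 / 2)).indicator (fun _ => (1 : ℂ)) s *
    Complex.exp (((2 * π * -(s * y) : ℝ) : ℂ) * Complex.I)

lemma S_sq_le (y : ℝ) : S y ^ 2 ≤ ‖C1 y‖ ^ 2 := by
  have h1 : C1 y = ∫ s in (-(1 / 2) : ℝ)..(1 / 2),
      Complex.exp (((2 * π * -(s * y) : ℝ) : ℂ) * Complex.I) := by
    rw [intervalIntegral.integral_of_le (by norm_num), ← integral_Icc_eq_integral_Ioc,
      ← integral_indicator measurableSet_Icc]
    unfold C1
    apply integral_congr_ae
    refine Eventually.of_forall fun s => ?_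
    dsimp only
    by_cases h : s ∈ Icc (-(1 / 2) : ℝ) (1 / 2)
    · rw [indicator_of_mem h, indicator_of_mem h, one_mul]
    · rw [indicator_of_notMem h, indicator_of_notMem h, zero_mul]
  have h2 : (C1 y).re = S y := by
    rw [h1]
    have h3 : IntervalIntegrable (fun s : ℝ =>
        Complex.exp (((2 * π * -(s * y) : ℝ) : ℂ) * Complex.I)) volume (-(1 / 2)) (1 / 2) := by
      apply Continuous.intervalIntegrable
      fun_prop
    have h4 := Complex.reCLM.intervalIntegral_comp_comm h3
    simp only [Complex.reCLM_apply] at h4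
    rw [← h4]
    unfold S
    apply intervalIntegral.integral_congr
    intro s _
    dsimp only
    rw [Complex.exp_ofReal_mul_I_re, ← Real.cos_neg]
    congr 1
    ring
  rw [← h2, ← sq_abs]
  exact pow_le_pow_left₀ (abs_nonneg _) (Complex.abs_re_le_norm _) 2

lemma fourier_cube (ξ : E n) : 𝓕 (ind (cube n)) ξ = ∏ i, C1 (ξ i) := by
  have h1 : ∀ v : E n, Real.fourierChar (-⟪v, ξ⟫) • ind (cube n) v =
      ∏ i, ((Icc (-(1 / 2) : ℝ) (1 / 2)).indicator (fun _ => (1 : ℂ)) (v i) *
        Complex.exp (((2 * π * -(v i * ξ i) : ℝ) : ℂ) * Complex.I)) := by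
    intro v
    rw [Finset.prod_mul_distrib, Circle.smul_def, smul_eq_mul, mul_comm]
    congr 1
    · unfold ind
      by_cases h : v ∈ cube n
      · rw [indicator_of_mem h]
        symm
        apply Finset.prod_eq_one
        intro i _
        rw [indicator_of_mem]
        exact abs_le.1 (h i)
      · rw [indicator_of_notMem h]
        simp only [cube, mem_ofPred_eq, not_forall] at h
        obtain ⟨i, hi⟩ := h
        symm
        apply Finset.prod_eq_zero (Finset.mem_univ i)
        rw [indicator_of_notMem]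
        intro h2
        exact hi (abs_le.2 h2)
    · rw [Real.fourierChar_apply, ← Complex.exp_sum]
      congr 1
      rw [← Finset.sum_mul]
      congr 1
      have e : ⟪v, ξ⟫ = ∑ i, v i * ξ i := by
        rw [PiLp.inner_apply]
        apply Finset.sum_congr rfl
        intro i _
        simp [mul_comm]
      rw [e]
      push_cast
      rw [← Finset.sum_neg_distrib, Finset.mul_sum]
  rw [Real.fourier_eq]
  simp_rw [h1]
  have h2 := (PiLp.volume_preserving_ofLp (Fin n)).integral_comp
    (MeasurableEquiv.toLp 2 (Fin n → ℝ)).symm.measurableEmbedding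
    (fun x : Fin n → ℝ => ∏ i, ((Icc (-(1 / 2) : ℝ) (1 / 2)).indicator (fun _ => (1 : ℂ)) (x i) *
        Complex.exp (((2 * π * -(x i * ξ i) : ℝ) : ℂ) * Complex.I)))
  have h3 := integral_fintype_prod_volume_eq_prod (𝕜 := ℂ) (ι := Fin n) (E := fun _ => ℝ)
    (fun i s => (Icc (-(1 / 2) : ℝ) (1 / 2)).indicator (fun _ => (1 : ℂ)) s *
        Complex.exp (((2 * π * -(s * ξ i) : ℝ) : ℂ) * Complex.I))
  refine Eq.trans ?_ (h2.trans h3)
  rfl

lemma w_cube (ξ : E n) : ∏ i, S (ξ i) ^ 2 ≤ w (cube n) ξ := by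
  unfold w
  rw [fourier_cube, norm_prod, ← Finset.prod_pow]
  exact Finset.prod_le_prod (fun _ _ => sq_nonneg _) fun i _ => S_sq_le _

lemma S_small {y : ℝ} (hy : |y| ≤ 1 / 4) : 1 / 4 ≤ S y ^ 2 := by
  have h1 : (1 / 2 : ℝ) ≤ S y := by
    unfold S
    have h2 : ∫ _s in (-(1 / 2) : ℝ)..(1 / 2), (1 / 2 : ℝ) = 1 / 2 := by
      rw [intervalIntegral.integral_const]; norm_num
    refine h2.symm.le.trans ?_
    apply intervalIntegral.integral_mono_on (by norm_num)
    · exact Continuous.intervalIntegrable (by fun_prop) _ _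
    · exact Continuous.intervalIntegrable (by fun_prop) _ _
    · intro s hs
      have hs' : |s| ≤ 1 / 2 := abs_le.2 hs
      have h3 : |2 * π * (s * y)| ≤ π / 3 := by
        rw [abs_mul (2 * π), abs_mul s, abs_of_pos (by positivity : (0 : ℝ) < 2 * π)]
        have h4 : |s| * |y| ≤ 1 / 2 * (1 / 4) :=
          mul_le_mul hs' hy (abs_nonneg _) (by norm_num)
        nlinarith [Real.pi_pos, mul_le_mul_of_nonneg_left h4 (by positivity : (0 : ℝ) ≤ 2 * π)]
      have h5 : Real.cos (π / 3) ≤ Real.cos |2 * π * (s * y)| :=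
        Real.cos_le_cos_of_nonneg_of_le_pi (abs_nonneg _) (by linarith [Real.pi_pos]) h3
      rw [Real.cos_pi_div_three, Real.cos_abs] at h5
      exact h5
  nlinarith

lemma S_eq {y : ℝ} (hy : y ≠ 0) : S y = Real.sin (π * y) / (π * y) := by
  unfold S
  have h1 : ∀ s : ℝ, Real.cos (2 * π * (s * y)) = Real.cos ((2 * π * y) * s) := by
    intro s; congr 1; ring
  have hc : 2 * π * y ≠ 0 := by positivity
  simp_rw [h1]
  rw [intervalIntegral.integral_comp_mul_left (fun x => Real.cos x) hc, integral_cos]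
  have e1 : 2 * π * y * (1 / 2) = π * y := by ring
  have e2 : 2 * π * y * -(1 / 2) = -(π * y) := by ring
  rw [e1, e2, Real.sin_neg, smul_eq_mul]
  have : π * y ≠ 0 := by positivity
  field_simp
  ring

/-- the oscillatory integral -/
lemma osc {t : ℝ} (ht : 36 ≤ t) :
    3 / 2 ≤ ∫ r in (4 : ℝ)..8, Real.sin (π * (t / r)) ^ 2 := by
  have ht0 : 0 < t := by linarith
  have hπ := Real.pi_pos
  have hcont : ContinuousOn (fun r : ℝ => Real.cos (2 * π * t / r)) (uIcc 4 8) := by
    apply Real.continuous_cos.comp_continuousOn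
    refine continuousOn_const.div continuousOn_id fun r hr => ?_
    rw [uIcc_of_le (by norm_num)] at hr
    have := hr.1
    change r ≠ 0
    linarith
  have hcont2 : ContinuousOn (fun r : ℝ => r / (π * t) * Real.sin (2 * π * t / r)) (uIcc 4 8) := by
    apply ContinuousOn.mul (by fun_prop)
    apply Real.continuous_sin.comp_continuousOn
    refine continuousOn_const.div continuousOn_id fun r hr => ?_
    rw [uIcc_of_le (by norm_num)] at hr
    have := hr.1
    change r ≠ 0
    linarith
  have e1 : ∀ r : ℝ, Real.sin (π * (t / r)) ^ 2 = (1 - Real.cos (2 * π * t / r)) / 2 := by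
    intro r
    have := Real.cos_two_mul (π * (t / r))
    have h2 := Real.sin_sq_add_cos_sq (π * (t / r))
    have e : 2 * π * t / r = 2 * (π * (t / r)) := by ring
    rw [e, this]
    linarith
  simp_rw [e1]
  rw [intervalIntegral.integral_div, intervalIntegral.integral_sub (by simp)
    hcont.intervalIntegrable, intervalIntegral.integral_const]
  -- the primitive
  have hder : ∀ r ∈ uIcc (4 : ℝ) 8, HasDerivAt
      (fun r : ℝ => -(r ^ 2 / (2 * π * t)) * Real.sin (2 * π * t / r))
      (Real.cos (2 * π * t / r) - r / (π * t) * Real.sin (2 * π * t / r)) r := by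
    intro r hr
    rw [uIcc_of_le (by norm_num)] at hr
    have hr0 : r ≠ 0 := by linarith [hr.1]
    have h1 : HasDerivAt (fun r : ℝ => 2 * π * t / r) (-(2 * π * t) / r ^ 2) r := by
      have := (hasDerivAt_inv hr0).const_mul (2 * π * t)
      convert! this using 1
      field_simp
    have h2 := h1.sin
    have h3 : HasDerivAt (fun r : ℝ => -(r ^ 2 / (2 * π * t))) (-(2 * r / (2 * π * t))) r := by
      have := ((hasDerivAt_pow 2 r).div_const (2 * π * t)).neg
      convert! this using 1
      norm_num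
    have h4 := h3.mul h2
    convert! h4 using 1
    field_simp
    ring
  have hFTC := intervalIntegral.integral_eq_sub_of_hasDerivAt hder
    ((hcont.sub hcont2).intervalIntegrable)
  rw [intervalIntegral.integral_sub hcont.intervalIntegrable hcont2.intervalIntegrable] at hFTC
  have hb2 : |∫ r in (4 : ℝ)..8, r / (π * t) * Real.sin (2 * π * t / r)| ≤
      8 / (π * t) * |(8 : ℝ) - 4| := by
    rw [← Real.norm_eq_abs]
    apply intervalIntegral.norm_integral_le_of_norm_le_const
    intro r hr
    rw [uIoc_of_le (by norm_num)] at hr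
    rw [norm_mul, Real.norm_eq_abs, Real.norm_eq_abs]
    have h1 : |r / (π * t)| ≤ 8 / (π * t) := by
      rw [abs_of_nonneg (div_nonneg (by linarith [hr.1]) (by positivity))]
      exact div_le_div_of_nonneg_right hr.2 (by positivity)
    have h2 := Real.abs_sin_le_one (2 * π * t / r)
    calc |r / (π * t)| * |Real.sin (2 * π * t / r)| ≤ 8 / (π * t) * 1 :=
          mul_le_mul h1 h2 (abs_nonneg _) (by positivity)
      _ = 8 / (π * t) := mul_one _
  have hs8 := abs_le.1 (Real.abs_sin_le_one (2 * π * t / 8))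
  have hs4 := abs_le.1 (Real.abs_sin_le_one (2 * π * t / 4))
  have hpt : 108 ≤ π * t := by nlinarith [Real.pi_gt_three]
  have hinv : 1 / (π * t) ≤ 1 / 108 := one_div_le_one_div_of_le (by norm_num) hpt
  have hinv0 : 0 < 1 / (π * t) := by positivity
  have k8 : (8 : ℝ) ^ 2 / (2 * π * t) = 32 * (1 / (π * t)) := by field_simp; norm_num
  have k4 : (4 : ℝ) ^ 2 / (2 * π * t) = 8 * (1 / (π * t)) := by field_simp; norm_num
  have k1 : 8 / (π * t) * |(8 : ℝ) - 4| = 32 * (1 / (π * t)) := by
    rw [show |(8 : ℝ) - 4| = 4 by norm_num]; ring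
  rw [k8, k4] at hFTC
  rw [k1] at hb2
  have hb3 := abs_le.1 hb2
  have a8 : -(32 * (1 / (π * t))) * Real.sin (2 * π * t / 8) ≤ 32 * (1 / (π * t)) := by
    nlinarith [hs8.1, hs8.2]
  have a4 : -(-(8 * (1 / (π * t))) * Real.sin (2 * π * t / 4)) ≤ 8 * (1 / (π * t)) := by
    nlinarith [hs4.1, hs4.2]
  have hfin : ∫ r in (4 : ℝ)..8, Real.cos (2 * π * t / r) ≤ 1 := by
    have : 72 * (1 / (π * t)) ≤ 1 := by linarith
    linarith [hb3.2]
  have e9 : ((8 : ℝ) - 4) • (1 : ℝ) = 4 := by norm_num
  rw [e9]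
  linarith

end Pool.Agent.Q156.RM
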