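import Pool.Agent.Q156.RM.J

set_option autoImplicit false

open MeasureTheory Set Filter Topology Real
open scoped ENNReal FourierTransform RealInnerProductSpace ContDiff

namespace Pool.Agent.Q156.RM

variable {n : ℕ}

/-- lower bound for the density near the first axis -/
lemma Gi_cube (i₀ : Fin n) {q : ℝ} (hq : 0 < q) {x : E n} (hx0 : 36 ≤ x i₀)
    (hx : ∀ i, i ≠ i₀ → |x i| ≤ 1) :
    ENNReal.ofReal ((8 : ℝ) ^ (-q - 1 - n) * (1 / 4) ^ n * (16 / π ^ 2) * (3 / 2) /
      (x i₀) ^ 2) ≤ Gi (cube n) q x := by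
  have hπ := Real.pi_pos
  set t := x i₀ with ht
  have ht0 : 0 < t := by linarith
  set c : ℝ := (8 : ℝ) ^ (-q - 1 - n) * (1 / 4) ^ n * (16 / π ^ 2) / t ^ 2 with hc
  have hc0 : 0 < c := by positivity
  unfold Gi
  have hpt : ∀ r ∈ Icc (4 : ℝ) 8, ENNReal.ofReal (c * Real.sin (π * (t / r)) ^ 2) ≤
      ENNReal.ofReal (r ^ (-q - 1 - n)) * ENNReal.ofReal (w (cube n) (r⁻¹ • x)) := by
    intro r hr
    have hr0 : 0 < r := by linarith [hr.1]
    rw [← ENNReal.ofReal_mul (by positivity)]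
    apply ENNReal.ofReal_le_ofReal
    have h1 : (8 : ℝ) ^ (-q - 1 - n) ≤ r ^ (-q - 1 - n) := by
      apply Real.rpow_le_rpow_of_nonpos hr0 hr.2
      have : (0 : ℝ) ≤ n := Nat.cast_nonneg n
      linarith
    have h2 : (1 / 4) ^ n * (16 / π ^ 2) / t ^ 2 * Real.sin (π * (t / r)) ^ 2 ≤
        w (cube n) (r⁻¹ • x) := by
      refine le_trans ?_ (w_cube _)
      rw [← Finset.mul_prod_erase _ _ (Finset.mem_univ i₀)]
      have h3 : (1 / 4 : ℝ) ^ n ≤ ∏ i ∈ Finset.univ.erase i₀, S ((r⁻¹ • x) i) ^ 2 := by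
        have h4 : (1 / 4 : ℝ) ^ n ≤ ∏ _i ∈ (Finset.univ : Finset (Fin n)).erase i₀, (1 / 4 : ℝ) := by
          rw [Finset.prod_const]
          apply pow_le_pow_of_le_one (by norm_num) (by norm_num)
          refine (Finset.card_le_univ _).trans ?_
          simp
        refine h4.trans (Finset.prod_le_prod (fun _ _ => by norm_num) fun i hi => ?_)
        apply S_small
        have h5 := hx i (Finset.ne_of_mem_erase hi)
        rw [PiLp.smul_apply, smul_eq_mul, abs_mul, abs_of_pos (by positivity)]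
        have h6 : r⁻¹ ≤ 1 / 4 := by
          rw [one_div]
          exact inv_anti₀ (by norm_num) hr.1
        calc r⁻¹ * |x i| ≤ 1 / 4 * 1 := mul_le_mul h6 h5 (abs_nonneg _) (by norm_num)
          _ = 1 / 4 := by norm_num
      have h7 : (16 / π ^ 2) / t ^ 2 * Real.sin (π * (t / r)) ^ 2 ≤ S ((r⁻¹ • x) i₀) ^ 2 := by
        have e : (r⁻¹ • x) i₀ = t / r := by
          rw [PiLp.smul_apply, smul_eq_mul, ← ht]; field_simp
        rw [e, S_eq (by positivity), div_pow]
        have h8 : (16 / π ^ 2) / t ^ 2 ≤ 1 / (π * (t / r)) ^ 2 := by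
          have : 1 / (π * (t / r)) ^ 2 = r ^ 2 / π ^ 2 / t ^ 2 := by field_simp
          rw [this]
          have h16 : (16 : ℝ) ≤ r ^ 2 := by nlinarith [hr.1]
          gcongr
        calc (16 / π ^ 2) / t ^ 2 * Real.sin (π * (t / r)) ^ 2
            ≤ 1 / (π * (t / r)) ^ 2 * Real.sin (π * (t / r)) ^ 2 :=
              mul_le_mul_of_nonneg_right h8 (sq_nonneg _)
          _ = Real.sin (π * (t / r)) ^ 2 / (π * (t / r)) ^ 2 := by ring
      calc (1 / 4) ^ n * (16 / π ^ 2) / t ^ 2 * Real.sin (π * (t / r)) ^ 2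
          = ((16 / π ^ 2) / t ^ 2 * Real.sin (π * (t / r)) ^ 2) * (1 / 4) ^ n := by ring
        _ ≤ S ((r⁻¹ • x) i₀) ^ 2 * ∏ i ∈ Finset.univ.erase i₀, S ((r⁻¹ • x) i) ^ 2 :=
            mul_le_mul h7 h3 (by positivity) (sq_nonneg _)
    calc c * Real.sin (π * (t / r)) ^ 2 = (8 : ℝ) ^ (-q - 1 - n) *
          ((1 / 4) ^ n * (16 / π ^ 2) / t ^ 2 * Real.sin (π * (t / r)) ^ 2) := by rw [hc]; ring
      _ ≤ r ^ (-q - 1 - n) * w (cube n) (r⁻¹ • x) :=
          mul_le_mul h1 h2 (by positivity) (by positivity)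
  have hsub : Icc (4 : ℝ) 8 ⊆ Ioi 0 := fun r hr => lt_of_lt_of_le (by norm_num) hr.1
  refine le_trans ?_ (lintegral_mono_set hsub)
  refine le_trans ?_ (setLIntegral_mono' measurableSet_Icc hpt)
  have hosc := osc hx0
  have hcont : ContinuousOn (fun r : ℝ => c * Real.sin (π * (t / r)) ^ 2) (Icc 4 8) := by
    refine continuousOn_const.mul (ContinuousOn.pow ?_ 2)
    apply Real.continuous_sin.comp_continuousOn
    refine continuousOn_const.mul (continuousOn_const.div continuousOn_id fun r hr => ?_)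
    have := hr.1
    change r ≠ 0
    linarith
  rw [← ofReal_integral_eq_lintegral_ofReal (hcont.integrableOn_compact isCompact_Icc)
    (Eventually.of_forall fun r => by positivity)]
  apply ENNReal.ofReal_le_ofReal
  rw [integral_const_mul, integral_Icc_eq_integral_Ioc,
    ← intervalIntegral.integral_of_le (by norm_num)]
  calc (8 : ℝ) ^ (-q - 1 - n) * (1 / 4) ^ n * (16 / π ^ 2) * (3 / 2) / t ^ 2
      = c * (3 / 2) := by rw [hc]; ring
    _ ≤ c * ∫ r in (4 : ℝ)..8, Real.sin (π * (t / r)) ^ 2 :=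
        mul_le_mul_of_nonneg_left hosc hc0.le

lemma volume_box (i₀ : Fin n) (T : ℝ) :
    volume {x : E n | T ≤ x i₀ ∧ ∀ i, i ≠ i₀ → |x i| ≤ 1} = ⊤ := by
  set I : Fin n → Set ℝ := fun i => if i = i₀ then Ici T else Icc (-1) 1 with hI
  have hm : ∀ i, MeasurableSet (I i) := by
    intro i
    rw [hI]
    dsimp only
    split_ifs
    · exact measurableSet_Ici
    · exact measurableSet_Icc
  have h1 : {x : E n | T ≤ x i₀ ∧ ∀ i, i ≠ i₀ → |x i| ≤ 1} =
      (fun x : E n => (WithLp.ofLp x : Fin n → ℝ)) ⁻¹' (pi univ I) := by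
    ext x
    simp only [mem_ofPred_eq, mem_preimage, Set.mem_pi, mem_univ, true_implies, hI]
    constructor
    · rintro ⟨h1, h2⟩ i
      by_cases hi : i = i₀
      · subst hi; simpa using h1
      · simp only [hi, if_false]
        exact abs_le.1 (h2 i hi)
    · intro h
      refine ⟨by simpa using h i₀, fun i hi => ?_⟩
      have := h i
      simp only [hi, if_false] at this
      exact abs_le.2 this
  rw [h1, (PiLp.volume_preserving_ofLp (Fin n)).measure_preimage
    (MeasurableSet.univ_pi hm).nullMeasurableSet, volume_pi_pi,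
    ← Finset.mul_prod_erase _ _ (Finset.mem_univ i₀)]
  have h2 : volume (I i₀) = ⊤ := by simp [hI]
  rw [h2]
  apply ENNReal.top_mul
  rw [Finset.prod_ne_zero_iff]
  intro i hi
  have : i ≠ i₀ := Finset.ne_of_mem_erase hi
  simp [hI, this]

/-- for the cube the restriction to the sphere is not the radial function of a star-shaped set of
finite volume -/
theorem cube_no (hn : 3 ≤ n) {q : ℝ} (hq : 0 < q) (hq1 : q < 1) :
    ¬ ∃ L : Set (E n), StarConvex ℝ 0 L ∧ volume L < ⊤ ∧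
      GivenBy (cube n) (-q) (fun x => ‖x‖ ^ (-q - n) * radial L (‖x‖⁻¹ • x)) := by
  rintro ⟨L, hL, hLf, hG⟩
  have hK := cube_isConvexBody n
  have hn0 : 0 < n := by omega
  let i₀ : Fin n := ⟨0, hn0⟩
  have hae := givenBy_unique hK hq hq1 hn0 hG
  have hfin := Gi_ae_lt_top hK hq hq1 hn0
  set κ := kap (cube n) q with hκ
  have hκ0 : 0 < κ := kap_pos hK hq hq1
  set c : ℝ := (8 : ℝ) ^ (-q - 1 - n) * (1 / 4) ^ n * (16 / π ^ 2) * (3 / 2) with hc
  have hc0 : 0 < c := by
    have := Real.pi_pos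
    positivity
  have hn3 : (3 : ℝ) ≤ n := by exact_mod_cast hn
  -- large t
  have hlim : Tendsto (fun t : ℝ => t ^ (n + q - 3)) atTop atTop :=
    tendsto_rpow_atTop (by linarith)
  obtain ⟨T₁, hT₁⟩ := (hlim.eventually_gt_atTop (1 / (κ * c))).exists_forall_of_atTop
  set T := max T₁ 36 with hT
  have hsub : ∀ᵐ x : E n, x ∈ {x : E n | T ≤ x i₀ ∧ ∀ i, i ≠ i₀ → |x i| ≤ 1} → x ∈ L := by
    filter_upwards [hae, hfin] with x h1 h2 hx
    obtain ⟨hx0, hxi⟩ := hx
    have h36 : 36 ≤ x i₀ := (le_max_right _ _).trans hx0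
    have hxT : T₁ ≤ x i₀ := (le_max_left _ _).trans hx0
    have ht0 : 0 < x i₀ := by linarith
    have hxn : x i₀ ≤ ‖x‖ := by
      have := PiLp.norm_apply_le x i₀
      rw [Real.norm_eq_abs] at this
      exact (le_abs_self _).trans this
    have hnx : 0 < ‖x‖ := by linarith
    have hxne : x ≠ 0 := norm_pos_iff.1 hnx
    have h3 := h1 hxne
    have h4 := Gi_cube i₀ hq h36 hxi
    rw [← hc] at h4
    have h5 : c / (x i₀) ^ 2 ≤ (Gi (cube n) q x).toReal := by
      rw [← ENNReal.ofReal_le_iff_le_toReal h2.ne]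
      exact h4
    have h6 := hT₁ _ hxT
    have h7 : ‖x‖ < radial L (‖x‖⁻¹ • x) := by
      have h8 : radial L (‖x‖⁻¹ • x) = κ * (Gi (cube n) q x).toReal * ‖x‖ ^ (q + n) := by
        rw [← h3]
        have : ‖x‖ ^ (-q - n) * ‖x‖ ^ (q + n) = 1 := by
          rw [← Real.rpow_add hnx]
          have : -q - n + (q + n) = 0 := by ring
          rw [this, Real.rpow_zero]
        calc radial L (‖x‖⁻¹ • x) = (‖x‖ ^ (-q - n) * ‖x‖ ^ (q + n)) * radial L (‖x‖⁻¹ • x) := by
              rw [this, one_mul]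
          _ = _ := by ring
      rw [h8]
      have h9 : ‖x‖ ^ (q + n) = ‖x‖ * ‖x‖ ^ (q + n - 1) := by
        rw [mul_comm, ← Real.rpow_add_one hnx.ne']
        congr 1; ring
      rw [h9]
      have h10 : (x i₀) ^ (q + n - 1) ≤ ‖x‖ ^ (q + n - 1) :=
        Real.rpow_le_rpow ht0.le hxn (by linarith)
      have h11 : 1 < κ * (c / (x i₀) ^ 2) * (x i₀) ^ (q + n - 1) := by
        have h12 : (x i₀) ^ (q + n - 1) = (x i₀) ^ ((n : ℝ) + q - 3) * (x i₀) ^ 2 := by
          rw [← Real.rpow_two, ← Real.rpow_add ht0]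
          congr 1; ring
        rw [h12]
        have h13 : κ * (c / (x i₀) ^ 2) * ((x i₀) ^ ((n : ℝ) + q - 3) * (x i₀) ^ 2) =
            κ * c * (x i₀) ^ ((n : ℝ) + q - 3) := by field_simp
        rw [h13]
        have h14 := mul_lt_mul_of_pos_left h6 (mul_pos hκ0 hc0)
        rwa [mul_one_div_cancel (mul_pos hκ0 hc0).ne'] at h14
      have h15 : 1 < κ * (Gi (cube n) q x).toReal * ‖x‖ ^ (q + n - 1) :=
        h11.trans_le (mul_le_mul (mul_le_mul_of_nonneg_left h5 hκ0.le) h10 (by positivity)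
          (mul_nonneg hκ0.le ENNReal.toReal_nonneg))
      calc ‖x‖ = ‖x‖ * 1 := (mul_one _).symm
        _ < ‖x‖ * (κ * (Gi (cube n) q x).toReal * ‖x‖ ^ (q + n - 1)) :=
            mul_lt_mul_of_pos_left h15 hnx
        _ = _ := by ring
    -- hence x ∈ L
    have hne : {l : ℝ | 0 ≤ l ∧ l • (‖x‖⁻¹ • x) ∈ L}.Nonempty := by
      by_contra h
      rw [not_nonempty_iff_eq_empty] at h
      unfold radial at h7
      rw [h, Real.sSup_empty] at h7
      linarith
    obtain ⟨l, ⟨hl0, hl⟩, hlt⟩ := exists_lt_of_lt_csSup hne h7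
    have hlpos : 0 < l := hnx.trans hlt
    have h16 := hL.smul_mem hl (t := ‖x‖ / l) (by positivity)
      (by rw [div_le_one hlpos]; exact hlt.le)
    rw [smul_smul, smul_smul] at h16
    have h17 : ‖x‖ / l * l * ‖x‖⁻¹ = 1 := by field_simp
    rwa [h17, one_smul] at h16
  have hle : volume {x : E n | T ≤ x i₀ ∧ ∀ i, i ≠ i₀ → |x i| ≤ 1} ≤ volume L :=
    measure_mono_ae hsub
  rw [volume_box] at hle
  exact absurd hLf (not_lt.2 hle)

end Pool.Agent.Q156.RM
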