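import Pool.Agent.Q156.RM.L

set_option autoImplicit false

open MeasureTheory Set Filter Topology Real
open scoped ENNReal FourierTransform RealInnerProductSpace ContDiff

namespace Pool.Agent.Q156.RM

variable {n : ℕ}

lemma Gi_smul {K : Set (E n)} (hK : IsCompact K) {q : ℝ} {c : ℝ} (hc : 0 < c) (ζ : E n) :
    Gi K q (c • ζ) = ENNReal.ofReal (c ^ (-q - n)) * Gi K q ζ := by
  have hwm := measurable_w hK
  have hm : ∀ z : E n, Measurable fun r : ℝ => ENNReal.ofReal (r ^ (-q - 1 - n)) *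
      ENNReal.ofReal (w K (r⁻¹ • z)) := by
    intro z
    have : Measurable fun r : ℝ => w K (r⁻¹ • z) := hwm.comp (by fun_prop)
    fun_prop
  set f : ℝ → ℝ≥0∞ := (Ioi (0 : ℝ)).indicator fun r => ENNReal.ofReal (r ^ (-q - 1 - n)) *
      ENNReal.ofReal (w K (r⁻¹ • (c • ζ))) with hf
  have hfm : Measurable f := (hm (c • ζ)).indicator measurableSet_Ioi
  have h1 : Gi K q (c • ζ) = ∫⁻ r, f r := by
    unfold Gi
    rw [← lintegral_indicator measurableSet_Ioi]
  have h2 : ∫⁻ s, f (c * s) = ENNReal.ofReal c⁻¹ * ∫⁻ r, f r := by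
    have e : ∫⁻ s, f (c * s) = ∫⁻ r, f r ∂(Measure.map (fun x : ℝ => c * x) volume) :=
      (lintegral_map hfm (by fun_prop)).symm
    rw [e, Real.map_volume_mul_left hc.ne', lintegral_smul_measure, smul_eq_mul,
      abs_of_pos (inv_pos.2 hc)]
  have h3 : ∫⁻ r, f r = ENNReal.ofReal c * ∫⁻ s, f (c * s) := by
    rw [h2, ← mul_assoc, ← ENNReal.ofReal_mul hc.le, mul_inv_cancel₀ hc.ne', ENNReal.ofReal_one,
      one_mul]
  have h4 : ∀ s, f (c * s) = ENNReal.ofReal (c ^ (-q - 1 - n)) *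
      (Ioi (0 : ℝ)).indicator (fun r => ENNReal.ofReal (r ^ (-q - 1 - n)) *
        ENNReal.ofReal (w K (r⁻¹ • ζ))) s := by
    intro s
    rw [hf]
    by_cases hs : 0 < s
    · rw [indicator_of_mem (show c * s ∈ Ioi (0 : ℝ) from mul_pos hc hs),
        indicator_of_mem (show s ∈ Ioi (0 : ℝ) from hs), Real.mul_rpow hc.le hs.le,
        ENNReal.ofReal_mul (by positivity), mul_assoc]
      congr 3
      rw [smul_smul]
      have : (c * s)⁻¹ * c = s⁻¹ := by field_simp
      rw [this]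
    · have hcs : c * s ∉ Ioi (0 : ℝ) := by
        rw [mem_Ioi, not_lt]
        exact mul_nonpos_of_nonneg_of_nonpos hc.le (not_lt.1 hs)
      rw [indicator_of_notMem hcs, indicator_of_notMem (show s ∉ Ioi (0 : ℝ) from hs), mul_zero]
  rw [h1, h3]
  simp_rw [h4]
  rw [lintegral_const_mul' _ _ ENNReal.ofReal_ne_top, lintegral_indicator measurableSet_Ioi,
    ← mul_assoc, ← ENNReal.ofReal_mul hc.le]
  congr 2
  rw [mul_comm, ← Real.rpow_add_one hc.ne']
  congr 1; ring

end Pool.Agent.Q156.RM
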